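import Mathlib
import Pool.Agent.R463.Sch

set_option autoImplicit false

/-!
# The gap laws for Schinzel's problem: almost prime values of `F_1 (n), ..., F_g (n), N - G (n)`

For EVERY large admissible `N`: the `n` for which none of these numbers has a prime factor `≤ N ^ (1 / r)`
follow each other as in a Poisson process, in ALL intervals of length at least `N ^ θ`.
-/

namespace Pool.Agent.Results.MP_0bf1d2_nt.GapLaws

open Polynomial Finset Filter
open Pool.Agent.R463.PS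

/-- The polynomials of the problem: `F_1, ..., F_g` irreducible, nonconstant, with positive leading
coefficients, no two of them translates of each other (`F_i ≠ F_j (x + t)` for `i ≠ j`, `t = 0, 1, 2, ...`), and `G`
nonconstant with positive leading coefficient. -/
structure Data {g : ℕ} (F : Fin g → ℤ[X]) (G : ℤ[X]) : Prop where
  irr : ∀ i, Irreducible (F i)
  deg : ∀ i, 1 ≤ (F i).natDegree
  lead : ∀ i, 0 < (F i).leadingCoeff
  degG : 1 ≤ G.natDegree
  leadG : 0 < G.leadingCoeff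
  tr : ∀ i j, i ≠ j → ∀ t : ℕ, F i ≠ (F j).comp (X + C (t : ℤ))

/-- `N` is admissible: `N - G` is irreducible and `F_1 ... F_g (N - G)` has no fixed prime divisor -/
def Admissible {g : ℕ} (F : Fin g → ℤ[X]) (G : ℤ[X]) (N : ℕ) : Prop :=
  Irreducible (C (N : ℤ) - G) ∧
    ∀ p : ℕ, p.Prime → ∃ n : ℕ, ¬ (p : ℤ) ∣ (N : ℤ) - G.eval (n : ℤ) ∧ ∀ i, ¬ (p : ℤ) ∣ (F i).eval (n : ℤ)

/-- neither `N - G n` nor one of the `F_i n` has a prime factor `p ≤ N ^ (1 / r)` -/
def Good {g : ℕ} (F : Fin g → ℤ[X]) (G : ℤ[X]) (N r n : ℕ) : Prop :=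
  ∀ p : ℕ, p.Prime → (p : ℝ) ≤ (N : ℝ) ^ (1 / (r : ℝ)) →
    ¬ (p : ℤ) ∣ (N : ℤ) - G.eval (n : ℤ) ∧ ∀ i, ¬ (p : ℤ) ∣ (F i).eval (n : ℤ)

/-- `omega_N (p)` of the problem -/
noncomputable def om {g : ℕ} (F : Fin g → ℤ[X]) (G : ℤ[X]) (N p : ℕ) : ℕ :=
  ((range p).filter (fun n : ℕ => (p : ℤ) ∣ (N : ℤ) - G.eval (n : ℤ) ∨
    ∃ i, (p : ℤ) ∣ (F i).eval (n : ℤ))).card

/-- the density: the product of `1 - omega_N(p) / p` over the primes `p ≤ N ^ (1 / r)` -/
noncomputable def V {g : ℕ} (F : Fin g → ℤ[X]) (G : ℤ[X]) (N r : ℕ) : ℝ :=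
  ∏ p ∈ (Icc 1 ⌊(N : ℝ) ^ (1 / (r : ℝ))⌋₊).filter Nat.Prime, (1 - (om F G N p : ℝ) / p)

open Classical in
/-- the number of the good `m` in `(Z, Z + Y]` for which fewer than `l` of the integers in `[m - T, m)`
are good -/
noncomputable def Far {g : ℕ} (F : Fin g → ℤ[X]) (G : ℤ[X]) (N r l T Z Y : ℕ) : ℕ :=
  ((Ioc Z (Z + Y)).filter (fun m => Good F G N r m ∧
    ((Ico (m - T) m).filter (fun n => Good F G N r n)).card < l)).card

lemma good_iff {g : ℕ} (F : Fin g → ℤ[X]) (G : ℤ[X]) (N r n : ℕ) :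
    Good F G N r n ↔ Sifted (sch F G N) N r n := by
  rw [sch_sift]
  rfl

lemma V_eq {g : ℕ} (F : Fin g → ℤ[X]) (G : ℤ[X]) (N r : ℕ) :
    V F G N r = Pool.Agent.R463.PS.V (sch F G N) N r := by
  unfold V Pool.Agent.R463.PS.V
  apply prod_congr rfl
  intro p _
  rw [sch_om]
  rfl

lemma data {g : ℕ} {F : Fin g → ℤ[X]} {G : ℤ[X]} (S : Data F G) : SchData F G :=
  ⟨S.irr, S.deg, S.lead, S.degG, S.leadG, fun i j hij t _ => S.tr i j hij t⟩

lemma adm {g : ℕ} {F : Fin g → ℤ[X]} {G : ℤ[X]} {N : ℕ} (h : Admissible F G N) : AdmN F G N := ⟨h.1, h.2⟩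

lemma Far_eq {g : ℕ} (F : Fin g → ℤ[X]) (G : ℤ[X]) (N r l T Z Y : ℕ) :
    Far F G N r l T Z Y = Pool.Agent.R463.PS.Far (sch F G N) N r l T Z Y := by
  classical
  unfold Far Pool.Agent.R463.PS.Far
  congr 1
  apply filter_congr
  intro m _
  rw [good_iff]
  have : (Ico (m - T) m).filter (fun n => Good F G N r n) =
      (Ico (m - T) m).filter (fun n => Sifted (sch F G N) N r n) :=
    filter_congr fun n _ => good_iff F G N r n
  rw [this]

/-- **The gap laws for `F_1 (n), ..., F_g (n), N - G (n)`, for every admissible `N`.** For `θ, ε > 0`, `l₀`,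
`x₀` there is `r₀` such that for all `r ≥ r₀` and all large admissible `N` the following holds for ALL
intervals `(Z, Z + Y]` with `Y ≥ N ^ θ`: the number `Far` of the good `m` in the interval, with fewer than
`l` good integers in `[m - T, m)`, is the value `Y V ∑_{j < l} exp (- T V) (T V) ^ j / j!` for the Poisson
process of density `V`, up to `ε Y V`, for all `l ≤ l₀` and all `T`, and for all `l` and all `T ≤ x₀ / V`.
(For `T = 0`, `l = 1` this is the number of the good integers in the interval.) -/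
theorem result (g : ℕ) (hg : 0 < g) (F : Fin g → ℤ[X]) (G : ℤ[X]) (S : Data F G) (θ : ℝ) (hθ : 0 < θ)
    (l₀ : ℕ) (x₀ ε : ℝ) (hε : 0 < ε) :
    ∃ r₀ : ℕ, ∀ r : ℕ, r₀ ≤ r → ∀ᶠ N : ℕ in atTop, Admissible F G N →
      ∀ Z Y : ℕ, (N : ℝ) ^ θ ≤ Y → ∀ l T : ℕ, (l ≤ l₀ ∨ T * V F G N r ≤ x₀) →
        |(Far F G N r l T Z Y : ℝ) - Y * V F G N r *
          ∑ j ∈ range l, Real.exp (-(T * V F G N r)) * (T * V F G N r) ^ j / j.factorial| ≤
          ε * (Y * V F G N r) := by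
  have hd : (0 : ℝ) < G.natDegree := by exact_mod_cast (by have := S.degG; omega : 0 < G.natDegree)
  obtain ⟨r₀, h⟩ := gaps (g + 1) (Ds F G) 2 (1 / (2 * (G.natDegree : ℝ))) θ (by norm_num)
    (by positivity) hθ l₀ x₀ ε hε
  refine ⟨max r₀ 2, fun r hr => ?_⟩
  obtain ⟨C, hC, hV⟩ := sch_V (data S) hg r ((le_max_right _ _).trans hr)
  filter_upwards [h r ((le_max_left _ _).trans hr) C, hV, sch_system (data S)]
    with N h1 h2 h3 hadm Z Y hY l T hT
  rw [V_eq] at hT ⊢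
  rw [Far_eq]
  exact h1 _ (h3 (adm hadm)) (h2 N (adm hadm)) Z Y hY l T hT

end Pool.Agent.Results.MP_0bf1d2_nt.GapLaws
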