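import Mathlib
import Pool.Agent.R463.Line

set_option autoImplicit false

/-!
# The gap laws for almost prime values of polynomials along the line `x + y = n`
-/

namespace Pool.Agent.Results.MP_0da313_nt.GapLaws

open Polynomial Finset Filter
open scoped Polynomial.Bivariate
open Pool.Agent.R463.PS

/-- the polynomial `g_{k,n} (x) = f_k (x, n - x)`; the outer variable of `f k` is `y` -/
noncomputable def gp {m : ℕ} (f : Fin m → ℤ[X][Y]) (n : ℕ) (k : Fin m) : ℤ[X] :=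
  (f k).eval (C (n : ℤ) - X)

/-- the conditions on `n`: all `g_{k,n}` are irreducible and not constant, and for every prime `p` there is
`x` such that `p` divides no `g_{k,n} (x)` -/
def Admissible {m : ℕ} (f : Fin m → ℤ[X][Y]) (n : ℕ) : Prop :=
  (∀ k, Irreducible (gp f n k)) ∧ (∀ k, 1 ≤ (gp f n k).natDegree) ∧
    ∀ p : ℕ, p.Prime → ∃ x : ℕ, ∀ k, ¬ (p : ℤ) ∣ (gp f n k).eval (x : ℤ)

/-- no value `f_k (x, n - x)` has a prime factor `p ≤ n ^ (1 / r)` -/
def Good {m : ℕ} (f : Fin m → ℤ[X][Y]) (n r x : ℕ) : Prop :=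
  ∀ p : ℕ, p.Prime → (p : ℝ) ≤ (n : ℝ) ^ (1 / (r : ℝ)) → ∀ k, ¬ (p : ℤ) ∣ (gp f n k).eval (x : ℤ)

open Classical in
/-- the number of the residues `x` modulo `p` for which `p` divides some `f_k (x, n - x)` -/
noncomputable def om {m : ℕ} (f : Fin m → ℤ[X][Y]) (n p : ℕ) : ℕ :=
  ((range p).filter (fun x : ℕ => ∃ k, (p : ℤ) ∣ (gp f n k).eval (x : ℤ))).card

/-- the density: the product of `1 - om(p) / p` over the primes `p ≤ n ^ (1 / r)` -/
noncomputable def V {m : ℕ} (f : Fin m → ℤ[X][Y]) (n r : ℕ) : ℝ :=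
  ∏ p ∈ (Icc 1 ⌊(n : ℝ) ^ (1 / (r : ℝ))⌋₊).filter Nat.Prime, (1 - (om f n p : ℝ) / p)

open Classical in
/-- the number of the good `x` in `(Z, Z + H]` for which fewer than `l` of the integers in `[x - T, x)`
are good -/
noncomputable def Far {m : ℕ} (f : Fin m → ℤ[X][Y]) (n r l T Z H : ℕ) : ℕ :=
  ((Ioc Z (Z + H)).filter (fun x => Good f n r x ∧
    ((Ico (x - T) x).filter (fun z => Good f n r z)).card < l)).card

lemma good_iff {m : ℕ} (f : Fin m → ℤ[X][Y]) (n r x : ℕ) : Good f n r x ↔ Sifted (lns f n) n r x := Iff.rfl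

lemma V_eq {m : ℕ} (f : Fin m → ℤ[X][Y]) (n r : ℕ) : V f n r = Pool.Agent.R463.PS.V (lns f n) n r := rfl

lemma Far_eq {m : ℕ} (f : Fin m → ℤ[X][Y]) (n r l T Z H : ℕ) :
    Far f n r l T Z H = Pool.Agent.R463.PS.Far (lns f n) n r l T Z H := rfl

/-- **The gap laws along the lines `x + y = n`.** Let `f_1, ..., f_m` be arbitrary polynomials in `x`, `y`. For
`δ, θ, ε > 0`, `l₀`, `x₀` there is `r₀` such that for all `r ≥ r₀`, all `C` and all large `n` which are
admissible, for which no two of the polynomials `f_k (x, n - x)` are translates of each other by some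
`1 ≤ t ≤ n ^ δ`, up to the sign, and `V ≤ C / log n`, the following holds for ALL intervals `(Z, Z + H]`
with `H ≥ n ^ θ`: the number `Far` of the good `x` in the interval, with fewer than `l` good integers in
`[x - T, x)`, is the value `H V ∑_{j < l} exp (- T V) (T V) ^ j / j!` for the Poisson process of density
`V`, up to `ε H V`, for all `l ≤ l₀` and all `T`, and for all `l` and all `T ≤ x₀ / V`. (For `T = 0`,
`l = 1` this is the number of the good integers in the interval.) -/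
theorem result (m : ℕ) (f : Fin m → ℤ[X][Y]) (δ θ : ℝ) (hδ : 0 < δ) (hθ : 0 < θ) (l₀ : ℕ) (x₀ ε : ℝ)
    (hε : 0 < ε) :
    ∃ r₀ : ℕ, ∀ r : ℕ, r₀ ≤ r → ∀ C₀ : ℝ, ∀ᶠ n : ℕ in atTop, Admissible f n →
      (∀ i j, ∀ t : ℕ, 1 ≤ t → (t : ℝ) ≤ (n : ℝ) ^ δ → gp f n i ≠ (gp f n j).comp (X + C (t : ℤ)) ∧
        gp f n i ≠ -(gp f n j).comp (X + C (t : ℤ))) →
      V f n r ≤ C₀ / Real.log n →
      ∀ Z H : ℕ, (n : ℝ) ^ θ ≤ H → ∀ l T : ℕ, (l ≤ l₀ ∨ T * V f n r ≤ x₀) →
        |(Far f n r l T Z H : ℝ) - H * V f n r *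
          ∑ j ∈ range l, Real.exp (-(T * V f n r)) * (T * V f n r) ^ j / j.factorial| ≤
          ε * (H * V f n r) := by
  obtain ⟨D, E, hE, hsys⟩ := lns_system f
  obtain ⟨r₀, h⟩ := gaps m D E δ θ hE hδ hθ l₀ x₀ ε hε
  refine ⟨r₀, fun r hr C₀ => ?_⟩
  filter_upwards [h r hr C₀, hsys] with n h1 h2 hadm htr hV Z H hH l T hT
  rw [V_eq] at hV hT ⊢
  rw [Far_eq]
  exact h1 _ (h2 _ hadm.1 hadm.2.1 hadm.2.2 htr) hV Z H hH l T hT

end Pool.Agent.Results.MP_0da313_nt.GapLaws
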