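import Mathlib
import Pool.Agent.R463.QuadAP

set_option autoImplicit false

/-!
# The gap laws for almost prime differences of consecutive cubes

Uniformly in all progressions `n = q m + b`, `q` up to any power of `X`, and in all short intervals.
-/

namespace Pool.Agent.Results.MP_22d6bb_nt.GapLaws

open Finset Filter

/-- for `n = q m + b` the number `3 n ^ 2 + 3 n + 1` has no prime factor `p ≤ X ^ (1 / r)` -/
def Good (q b X r m : ℕ) : Prop :=
  ∀ p : ℕ, p.Prime → (p : ℝ) ≤ (X : ℝ) ^ (1 / (r : ℝ)) → ¬ p ∣ 3 * (q * m + b) ^ 2 + 3 * (q * m + b) + 1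

/-- `0` for the prime factors of `q`, otherwise the number of the roots of `3 n ^ 2 + 3 n + 1` modulo `p` -/
def nu (q p : ℕ) : ℕ := if p ∣ q then 0 else ((range p).filter (fun n : ℕ => p ∣ 3 * n ^ 2 + 3 * n + 1)).card

/-- the density: the product of `1 - nu(p) / p` over the primes `p ≤ X ^ (1 / r)` -/
noncomputable def V (q X r : ℕ) : ℝ :=
  ∏ p ∈ (Icc 1 ⌊(X : ℝ) ^ (1 / (r : ℝ))⌋₊).filter Nat.Prime, (1 - (nu q p : ℝ) / p)

/-- the product of `1 - nu(p) / p`, with `nu` for the modulus `1`, over the prime factors `p` of `q` -/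
noncomputable def kappa (q : ℕ) : ℝ := ∏ p ∈ q.primeFactors, (1 - (nu 1 p : ℝ) / p)

lemma dvd_iff (p n : ℕ) : (p : ℤ) ∣ (3 : ℤ) * (n : ℤ) ^ 2 + (3 : ℤ) * n + (1 : ℤ) ↔ p ∣ 3 * n ^ 2 + 3 * n + 1 := by
  rw [← Int.natCast_dvd_natCast (m := p)]
  push_cast
  exact Iff.of_eq (congrArg _ (by ring))

lemma good_iff (q b X r m : ℕ) : Good q b X r m ↔ Pool.Agent.R463.QA.GoodQ 3 3 1 q b X r m := by
  unfold Good Pool.Agent.R463.QA.GoodQ
  apply forall_congr'
  intro p
  have h := dvd_iff p (q * m + b)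
  push_cast at h
  rw [h]

lemma nu_eq (q p : ℕ) : nu q p = Pool.Agent.R463.QA.nuQ 3 3 1 q p := by
  classical
  unfold nu Pool.Agent.R463.QA.nuQ
  have : (range p).filter (fun n : ℕ => p ∣ 3 * n ^ 2 + 3 * n + 1) =
      (range p).filter (fun n : ℕ => (p : ℤ) ∣ (3 : ℤ) * (n : ℤ) ^ 2 + (3 : ℤ) * n + (1 : ℤ)) :=
    filter_congr fun n _ => (dvd_iff p n).symm
  rw [this]

lemma V_eq (q X r : ℕ) : V q X r = Pool.Agent.R463.QA.VQ 3 3 1 q X r := by
  unfold V Pool.Agent.R463.QA.VQ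
  simp only [nu_eq]

lemma kappa_eq (q : ℕ) : kappa q = Pool.Agent.R463.QA.kap 3 3 1 q := by
  unfold kappa Pool.Agent.R463.QA.kap
  simp only [nu_eq]

lemma adm : Pool.Agent.R463.QA.Adm 3 3 1 where
  pos := by norm_num
  prim := fun p hp h => by
    have h1 : p ∣ 1 := by exact_mod_cast h.2.2
    exact hp.one_lt.ne' (Nat.dvd_one.1 h1)
  par := by decide
  disc := by
    rintro ⟨m, hm⟩
    nlinarith [mul_self_nonneg m]


open Classical in
/-- the number of the good `m` in `(Z, Z + Y]` for which fewer than `l` of the integers in `[m - T, m)`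
are good -/
noncomputable def Far (q b X r l T Z Y : ℕ) : ℕ :=
  ((Ioc Z (Z + Y)).filter (fun m => Good q b X r m ∧
    ((Ico (m - T) m).filter (fun n => Good q b X r n)).card < l)).card

lemma Far_eq (q b X r l T Z Y : ℕ) :
    Far q b X r l T Z Y = Pool.Agent.R463.QA.FarQ 3 3 1 q b X r l T Z Y := by
  classical
  unfold Far Pool.Agent.R463.QA.FarQ
  congr 1
  apply filter_congr
  intro m _
  rw [good_iff]
  have : (Ico (m - T) m).filter (fun n => Good q b X r n) =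
      (Ico (m - T) m).filter (fun n => Pool.Agent.R463.QA.GoodQ 3 3 1 q b X r n) :=
    filter_congr fun n _ => good_iff q b X r n
  rw [this]

/-- **The gap laws for the almost prime values of `3 n ^ 2 + 3 n + 1` in arithmetic progressions.** For every natural
`A`, `θ > 0`, `l₀`, `x₀` and `ε > 0` there is `r₀` such that for all `r ≥ r₀`, all `B > 0` and all large `X` the
following holds uniformly for ALL moduli `1 ≤ q ≤ X ^ A` with `κ(q) ≥ 1 / B` and ALL residues `b ≤ X ^ A` for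
which `q` is prime to the value at `b`, and for ALL intervals `(Z, Z + Y]` with `Y ≥ X ^ θ`: the number `Far`
of the good `m` in the interval, with fewer than `l` good integers in `[m - T, m)`, is the value
`Y V ∑_{j < l} exp (- T V) (T V) ^ j / j!` for the Poisson process of density `V`, up to `ε Y V`, for all
`l ≤ l₀` and all `T`, and for all `l` and all `T ≤ x₀ / V`. (For `T = 0`, `l = 1` this is the number of
the good integers in the interval.) -/
theorem result (A : ℕ) (θ : ℝ) (hθ : 0 < θ) (l₀ : ℕ) (x₀ ε : ℝ) (hε : 0 < ε) :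
    ∃ r₀ : ℕ, ∀ r : ℕ, r₀ ≤ r → ∀ B : ℝ, 0 < B → ∀ᶠ X : ℕ in atTop, ∀ q b : ℕ, 1 ≤ q → q ≤ X ^ A →
        b ≤ X ^ A → Nat.Coprime q (3 * b ^ 2 + 3 * b + 1) → 1 ≤ B * kappa q →
        ∀ Z Y : ℕ, (X : ℝ) ^ θ ≤ Y → ∀ l T : ℕ, (l ≤ l₀ ∨ T * V q X r ≤ x₀) →
          |(Far q b X r l T Z Y : ℝ) - Y * V q X r *
            ∑ j ∈ range l, Real.exp (-(T * V q X r)) * (T * V q X r) ^ j / j.factorial| ≤
            ε * (Y * V q X r) := by
  obtain ⟨r₀, h⟩ := Pool.Agent.R463.QA.gapsQ 3 3 1 adm A θ hθ l₀ x₀ ε hε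
  refine ⟨r₀, fun r hr B hB => ?_⟩
  filter_upwards [h r hr B hB] with X h1 q b hq hqX hbX hcop hk Z Y hY l T hT
  have hcop' : IsCoprime (q : ℤ) ((3 : ℤ) * (b : ℤ) ^ 2 + (3 : ℤ) * b + (1 : ℤ)) := by
    have h5 := Nat.isCoprime_iff_coprime.2 hcop
    push_cast at h5
    have e : ((3 : ℤ) * (b : ℤ) ^ 2 + (3 : ℤ) * b + (1 : ℤ)) = 3 * (b : ℤ) ^ 2 + 3 * (b : ℤ) + 1 := by ring
    rw [e]
    exact h5
  rw [kappa_eq] at hk
  rw [V_eq] at hT ⊢
  rw [Far_eq]
  exact h1 q b hq hqX hbX hcop' hk Z Y hY l T hT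

end Pool.Agent.Results.MP_22d6bb_nt.GapLaws
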