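import Mathlib
import Pool.Agent.R463.LinAP2

set_option autoImplicit false

/-!
# The gap laws for almost prime pairs `n`, `2 n - 1` in arithmetic progressions to large moduli

Uniformly for all moduli `q ≤ X ^ A` and in ALL intervals of length at least `X ^ θ`: the `n ≡ c (mod q)` for
which neither `n` nor `2 n - 1` has a prime factor `≤ X ^ (1 / r)` follow each other as in a Poisson process.
-/

namespace Pool.Agent.Results.MP_39a890_nt.GapLaws

open Finset Filter

/-- for `n = q m + c` neither `n` nor `2 * n - 1` has a prime factor `p ≤ X ^ (1 / r)` -/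
def Good (q c X r m : ℕ) : Prop :=
  ∀ p : ℕ, p.Prime → (p : ℝ) ≤ (X : ℝ) ^ (1 / (r : ℝ)) →
    ¬ (p : ℤ) ∣ (q : ℤ) * m + c ∧ ¬ (p : ℤ) ∣ 2 * ((q : ℤ) * m + c) - 1

/-- `0` for the prime factors of `q`, otherwise the number of the `n` modulo `p` for which `p` divides `n` or
`2 * n - 1` -/
def nu (q p : ℕ) : ℕ :=
  if p ∣ q then 0 else ((range p).filter (fun n : ℕ => (p : ℤ) ∣ (n : ℤ) ∨ (p : ℤ) ∣ 2 * (n : ℤ) - 1)).card

/-- the density of the good integers: the product of `1 - nu(p) / p` over the primes `p ≤ X ^ (1 / r)` -/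
noncomputable def V (q X r : ℕ) : ℝ :=
  ∏ p ∈ (Icc 1 ⌊(X : ℝ) ^ (1 / (r : ℝ))⌋₊).filter Nat.Prime, (1 - (nu q p : ℝ) / p)

open Classical in
/-- the number of the good `m` in `(Z, Z + Y]` with fewer than `l` good integers in `[m - T, m)` -/
noncomputable def Far (q c X r l T Z Y : ℕ) : ℕ :=
  ((Ioc Z (Z + Y)).filter (fun m => Good q c X r m ∧
    ((Ico (m - T) m).filter (fun n => Good q c X r n)).card < l)).card

/-- the leading coefficients -/
def fa : Fin 2 → ℤ := ![1, 2]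
/-- the constant coefficients -/
def fb : Fin 2 → ℤ := ![0, -1]

lemma ev (x : ℤ) : fa 0 * x + fb 0 = x ∧ fa 1 * x + fb 1 = 2 * x - 1 := by
  constructor
  · show (1 : ℤ) * x + 0 = x
    ring
  · show (2 : ℤ) * x + (-1) = 2 * x - 1
    ring

lemma good_iff (q c X r m : ℕ) : Good q c X r m ↔ Pool.Agent.R463.LA.GoodL fa fb q c X r m := by
  unfold Good Pool.Agent.R463.LA.GoodL
  refine forall_congr' fun p => forall_congr' fun _ => forall_congr' fun _ => ?_
  rw [Fin.forall_fin_two, (ev _).1, (ev _).2]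

lemma nu_eq (q p : ℕ) : nu q p = Pool.Agent.R463.LA.nuL fa fb q p := by
  classical
  unfold nu Pool.Agent.R463.LA.nuL
  split_ifs
  · rfl
  · congr 1
    apply filter_congr
    intro n _
    rw [Fin.exists_fin_two, (ev _).1, (ev _).2]

lemma V_eq (q X r : ℕ) : V q X r = Pool.Agent.R463.LA.VL fa fb q X r := by
  unfold V Pool.Agent.R463.LA.VL
  simp only [nu_eq]

lemma Far_eq (q c X r l T Z Y : ℕ) : Far q c X r l T Z Y = Pool.Agent.R463.LA.FarL fa fb q c X r l T Z Y := by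
  classical
  unfold Far Pool.Agent.R463.LA.FarL
  simp only [good_iff]

lemma adm : Pool.Agent.R463.PS.AdmL fa fb := by
  refine ⟨fun i => ?_, fun p hp => ?_⟩
  · fin_cases i
    · show (0 : ℤ) < 1
      norm_num
    · show (0 : ℤ) < 2
      norm_num
  · by_cases h1 : p ∣ 15
    · refine ⟨7, fun i => ?_⟩
      have h2 : ¬ p ∣ 91 := by
        intro h2
        have h3 := Nat.dvd_gcd h1 h2
        have h4 : Nat.gcd 15 91 = 1 := by norm_num
        rw [h4] at h3
        exact hp.one_lt.ne' (Nat.dvd_one.1 h3)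
      have h5 : ∀ x : ℕ, x ∣ 91 → ¬ (p : ℤ) ∣ (x : ℤ) := fun x hx hd =>
        h2 ((Int.natCast_dvd_natCast.1 hd).trans hx)
      fin_cases i
      · have h6 := h5 7 (by norm_num)
        have h7 := (ev ((7 : ℕ) : ℤ)).1
        intro hd
        apply h6
        rw [← h7]
        exact hd
      · have h6 := h5 13 (by norm_num)
        have h7 := (ev ((7 : ℕ) : ℤ)).2
        intro hd
        apply h6
        have h8 : ((13 : ℕ) : ℤ) = 2 * (((7 : ℕ)) : ℤ) - 1 := by norm_num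
        rw [h8, ← h7]
        exact hd
    · refine ⟨3, fun i => ?_⟩
      have h5 : ∀ x : ℕ, x ∣ 15 → ¬ (p : ℤ) ∣ (x : ℤ) := fun x hx hd =>
        h1 ((Int.natCast_dvd_natCast.1 hd).trans hx)
      fin_cases i
      · have h6 := h5 3 (by norm_num)
        have h7 := (ev ((3 : ℕ) : ℤ)).1
        intro hd
        apply h6
        rw [← h7]
        exact hd
      · have h6 := h5 5 (by norm_num)
        have h7 := (ev ((3 : ℕ) : ℤ)).2
        intro hd
        apply h6
        have h8 : ((5 : ℕ) : ℤ) = 2 * (((3 : ℕ)) : ℤ) - 1 := by norm_num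
        rw [h8, ← h7]
        exact hd

lemma cop (q c : ℕ) (h1 : Nat.Coprime q c) (h2 : IsCoprime (q : ℤ) (2 * (c : ℤ) - 1)) :
    ∀ i, IsCoprime (q : ℤ) (fa i * c + fb i) := by
  rw [Fin.forall_fin_two, (ev _).1, (ev _).2]
  exact ⟨Nat.isCoprime_iff_coprime.2 h1, h2⟩

lemma det : fa 0 * fb 1 ≠ fa 1 * fb 0 := by
  show (1 : ℤ) * (-1) ≠ 2 * 0
  norm_num

lemma tr (q : ℕ) (hq : 1 ≤ q) : ∀ i j, fa i = fa j → fb i - fb j < q * fa j := by
  have hq0 : (0 : ℤ) < q := by exact_mod_cast hq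
  intro i j hij
  fin_cases i <;> fin_cases j
  · show (0 : ℤ) - 0 < q * 1
    linarith
  · exact absurd hij (by show ¬ ((1 : ℤ) = 2); norm_num)
  · exact absurd hij (by show ¬ ((2 : ℤ) = 1); norm_num)
  · show (-1 : ℤ) - (-1) < q * 2
    linarith

/-- **The gap laws for almost prime pairs `n`, `2 n - 1` in progressions.** For `A`, `θ > 0`, `l₀`, `x₀` and `ε > 0` there is
`r₀` such that for all `r ≥ r₀` and all large `X` the following holds uniformly for ALL moduli
`1 ≤ q ≤ X ^ A` and residues `c ≤ X ^ A` with `c` and `2 * c - 1` prime to `q`, and for ALL intervals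
`(Z, Z + Y]` with `Y ≥ X ^ θ`: the number `Far` of the good `m` in the interval, with fewer than `l` good
integers in `[m - T, m)`, is the value `Y V ∑_{j < l} exp (- T V) (T V) ^ j / j!` for the Poisson process of
density `V`, up to `ε Y V`, for all `l ≤ l₀` and all `T`, and for all `l` and all `T ≤ x₀ / V`. (For
`T = 0`, `l = 1` this is the number of the good integers in the interval.) -/
theorem result (A : ℕ) (θ : ℝ) (hθ : 0 < θ) (l₀ : ℕ) (x₀ ε : ℝ) (hε : 0 < ε) :
    ∃ r₀ : ℕ, 2 ≤ r₀ ∧ ∀ r : ℕ, r₀ ≤ r → ∀ᶠ X : ℕ in atTop, ∀ q c : ℕ, 1 ≤ q → q ≤ X ^ A →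
      c ≤ X ^ A → Nat.Coprime q c → IsCoprime (q : ℤ) (2 * (c : ℤ) - 1) →
      ∀ Z Y : ℕ, (X : ℝ) ^ θ ≤ Y → ∀ l T : ℕ, (l ≤ l₀ ∨ T * V q X r ≤ x₀) →
        |(Far q c X r l T Z Y : ℝ) - Y * V q X r *
          ∑ j ∈ range l, Real.exp (-(T * V q X r)) * (T * V q X r) ^ j / j.factorial| ≤
          ε * (Y * V q X r) := by
  obtain ⟨r₀, hr₀, h⟩ := Pool.Agent.R463.LA.gapsM adm 0 1 det A θ hθ l₀ x₀ ε hε
  refine ⟨r₀, hr₀, fun r hr => ?_⟩
  filter_upwards [h r hr] with X hX q c hq hqX hcX h1 h2 Z Y hY l T hT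
  rw [V_eq] at hT ⊢
  rw [Far_eq]
  exact hX q c hq hqX hcX (cop q c h1 h2) (tr q hq) Z Y hY l T hT

end Pool.Agent.Results.MP_39a890_nt.GapLaws
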