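import Mathlib
import Pool.Agent.R463.Pair2

set_option autoImplicit false

/-!
# The gap laws for almost prime pairs `n`, `n + d` in arithmetic progressions to large moduli

Uniformly for all even `d ≤ X ^ A` and all moduli `q ≤ X ^ A`, and in ALL intervals of length at least `X ^ θ`:
the `n ≡ c (mod q)` for which neither `n` nor `n + d` has a prime factor `≤ X ^ (1 / r)` follow each other as in a
Poisson process.
-/

namespace Pool.Agent.Results.MP_92ef0c_nt.GapLaws

open Finset Filter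

/-- for `n = q m + c` neither `n` nor `n + d` has a prime factor `p ≤ X ^ (1 / r)` -/
def Good (d q c X r m : ℕ) : Prop :=
  ∀ p : ℕ, p.Prime → (p : ℝ) ≤ (X : ℝ) ^ (1 / (r : ℝ)) → ¬ p ∣ q * m + c ∧ ¬ p ∣ q * m + c + d

/-- `0` for the prime factors of `q`, `1` for the other prime factors of `d`, `2` for the other primes -/
def nu (d q p : ℕ) : ℕ := if p ∣ q then 0 else if p ∣ d then 1 else 2

/-- the density of the good integers: the product of `1 - nu(p) / p` over the primes `p ≤ X ^ (1 / r)` -/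
noncomputable def V (d q X r : ℕ) : ℝ :=
  ∏ p ∈ (Icc 1 ⌊(X : ℝ) ^ (1 / (r : ℝ))⌋₊).filter Nat.Prime, (1 - (nu d q p : ℝ) / p)

open Classical in
/-- the number of the good `m` in `(Z, Z + Y]` with fewer than `l` good integers in `[m - T, m)` -/
noncomputable def Far (d q c X r l T Z Y : ℕ) : ℕ :=
  ((Ioc Z (Z + Y)).filter (fun m => Good d q c X r m ∧
    ((Ico (m - T) m).filter (fun n => Good d q c X r n)).card < l)).card

/-- **The gap laws for almost prime pairs in progressions.** For `A, δ, θ > 0`, `l₀`, `x₀` and `ε > 0` there is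
`r₀` such that for all `r ≥ r₀` and all large `X` the following holds uniformly for ALL even `0 < d ≤ X ^ A`
and ALL moduli `q ≤ X ^ A` and residues `c ≤ X ^ A` with `q` prime to `c` and to `c + d` such that `d` is not of
the form `q t` with `t ≤ X ^ δ`, and for ALL intervals `(Z, Z + Y]` with `Y ≥ X ^ θ`: the number `Far` of the
good `m` in the interval, with fewer than `l` good integers in `[m - T, m)`, is the value
`Y V ∑_{j < l} exp (- T V) (T V) ^ j / j!` for the Poisson process of density `V`, up to `ε Y V`, for all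
`l ≤ l₀` and all `T`, and for all `l` and all `T ≤ x₀ / V`. (For `T = 0`, `l = 1` this is the number of
the good integers in the interval.) -/
theorem result (A δ θ : ℝ) (hA : 0 < A) (hδ : 0 < δ) (hθ : 0 < θ) (l₀ : ℕ) (x₀ ε : ℝ) (hε : 0 < ε) :
    ∃ r₀ : ℕ, 2 ≤ r₀ ∧ ∀ r : ℕ, r₀ ≤ r → ∀ᶠ X : ℕ in atTop, ∀ d q c : ℕ, Even d → 1 ≤ d →
      (d : ℝ) ≤ (X : ℝ) ^ A → 1 ≤ q → (q : ℝ) ≤ (X : ℝ) ^ A → (c : ℝ) ≤ (X : ℝ) ^ A → Nat.Coprime q c →
      Nat.Coprime q (c + d) → (∀ t : ℕ, 1 ≤ t → (t : ℝ) ≤ (X : ℝ) ^ δ → d ≠ q * t) →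
      ∀ Z Y : ℕ, (X : ℝ) ^ θ ≤ Y → ∀ l T : ℕ, (l ≤ l₀ ∨ T * V d q X r ≤ x₀) →
        |(Far d q c X r l T Z Y : ℝ) - Y * V d q X r *
          ∑ j ∈ range l, Real.exp (-(T * V d q X r)) * (T * V d q X r) ^ j / j.factorial| ≤
          ε * (Y * V d q X r) :=
  Pool.Agent.R463.PS.gapsP A δ θ hA hδ hθ l₀ x₀ ε hε

end Pool.Agent.Results.MP_92ef0c_nt.GapLaws
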