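import Mathlib
import Pool.Agent.R463.TwoP

set_option autoImplicit false

/-!
# The gap laws for `n = f(x) + y` with almost primes `x` and `y`

The `x` for which `x` and `n - f(x)` have no small prime factor, in all short intervals, uniformly in `n` and the
admissible quadratic `f`: their number and their spacing.
-/

namespace Pool.Agent.Results.MP_d9bc60_nt.GapLaws

open Finset Filter

/-- the functions `n - f x` with an admissible `f x = x ^ 2 + b x + c` (`b` and `c` have opposite parity, `3`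
does not divide `b`) and an odd `n` which is not a value of `f` at an integer; `|b|, |c|, |n| ≤ N ^ A` -/
def Family (A N : ℕ) (g : ℕ → ℤ) : Prop :=
  ∃ b c n : ℤ, Odd (b + c) ∧ ¬ (3 : ℤ) ∣ b ∧ Odd n ∧ (∀ m : ℤ, m ^ 2 + b * m + c ≠ n) ∧
    |b| ≤ (N : ℤ) ^ A ∧ |c| ≤ (N : ℤ) ^ A ∧ |n| ≤ (N : ℤ) ^ A ∧
    g = fun x : ℕ => n - ((x : ℤ) ^ 2 + b * x + c)

/-- neither `n` nor `f n` has a prime factor `p ≤ X ^ (1 / r)` -/
def Good (f : ℕ → ℤ) (X r n : ℕ) : Prop :=
  ∀ p : ℕ, p.Prime → (p : ℝ) ≤ (X : ℝ) ^ (1 / (r : ℝ)) → ¬ p ∣ n ∧ ¬ (p : ℤ) ∣ f n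

/-- the number of the residues `n` modulo `p` for which `p` divides `n` or `f n` -/
def nu (f : ℕ → ℤ) (p : ℕ) : ℕ := ((range p).filter (fun n : ℕ => p ∣ n ∨ (p : ℤ) ∣ f n)).card

/-- the product of `1 - nu(p) / p` over the primes `p ≤ X ^ (1 / r)` -/
noncomputable def V (f : ℕ → ℤ) (X r : ℕ) : ℝ :=
  ∏ p ∈ (Icc 1 ⌊(X : ℝ) ^ (1 / (r : ℝ))⌋₊).filter Nat.Prime, (1 - (nu f p : ℝ) / p)

open Classical in
/-- the number of the good `m` in `(Z, Z + Y]` for which fewer than `l` of the integers in `[m - T, m)`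
are good -/
noncomputable def Far (f : ℕ → ℤ) (X r l T Z Y : ℕ) : ℕ :=
  ((Ioc Z (Z + Y)).filter (fun m => Good f X r m ∧
    ((Ico (m - T) m).filter (fun n => Good f X r n)).card < l)).card

lemma good_iff (f : ℕ → ℤ) (g : ℤ → ℤ) (hg : ∀ n : ℕ, g n = f n) (X r n : ℕ) :
    Good f X r n ↔ Pool.Agent.R463.TP.GoodT g X r n := by
  unfold Good Pool.Agent.R463.TP.GoodT
  simp only [hg]

lemma nu_eq (f : ℕ → ℤ) (g : ℤ → ℤ) (hg : ∀ n : ℕ, g n = f n) (p : ℕ) :
    nu f p = Pool.Agent.R463.TP.nuT g p := by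
  classical
  unfold nu Pool.Agent.R463.TP.nuT
  congr 1
  ext n
  simp only [mem_filter, hg]

lemma V_eq (f : ℕ → ℤ) (g : ℤ → ℤ) (hg : ∀ n : ℕ, g n = f n) (X r : ℕ) :
    V f X r = Pool.Agent.R463.TP.VT g X r := by
  unfold V Pool.Agent.R463.TP.VT
  simp only [nu_eq f g hg]

lemma Far_eq (f : ℕ → ℤ) (g : ℤ → ℤ) (hg : ∀ n : ℕ, g n = f n) (X r l T Z Y : ℕ) :
    Far f X r l T Z Y = Pool.Agent.R463.TP.FarT g X r l T Z Y := by
  classical
  unfold Far Pool.Agent.R463.TP.FarT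
  congr 1
  apply filter_congr
  intro m _
  rw [good_iff f g hg]
  have : (Ico (m - T) m).filter (fun n => Good f X r n) =
      (Ico (m - T) m).filter (fun n => Pool.Agent.R463.TP.GoodT g X r n) :=
    filter_congr fun n _ => good_iff f g hg X r n
  rw [this]

lemma adm (b c n : ℤ) (hbc : Odd (b + c)) (h3 : ¬ (3 : ℤ) ∣ b) (hn : Odd n) (p : ℕ) (hp : p.Prime) :
    ∃ x : ℕ, ¬ p ∣ x ∧ ¬ (p : ℤ) ∣ (-1) * (x : ℤ) ^ 2 + (-b) * x + (n - c) := by
  by_cases h2 : p = 2
  · subst h2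
    refine ⟨1, by norm_num, ?_⟩
    intro h
    obtain ⟨u, hu⟩ := hbc
    obtain ⟨v, hv⟩ := hn
    have e : (-1) * ((1 : ℕ) : ℤ) ^ 2 + (-b) * ((1 : ℕ) : ℤ) + (n - c) = 2 * (v - u - 1) + 1 := by
      push_cast
      linarith
    rw [e] at h
    push_cast at h
    omega
  by_cases h3' : p = 3
  · subst h3'
    by_contra hcon
    push Not at hcon
    have g1 := hcon 1 (by norm_num)
    have g2 := hcon 2 (by norm_num)
    apply h3
    have h4 := dvd_sub g1 g2
    have e : (-1) * ((1 : ℕ) : ℤ) ^ 2 + (-b) * ((1 : ℕ) : ℤ) + (n - c) -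
        ((-1) * ((2 : ℕ) : ℤ) ^ 2 + (-b) * ((2 : ℕ) : ℤ) + (n - c)) = 3 + b := by
      push_cast
      ring
    rw [e] at h4
    have h5 : (3 : ℤ) ∣ 3 + b := by exact_mod_cast h4
    exact (dvd_add_right (dvd_refl (3 : ℤ))).1 h5
  have hp5 : 5 ≤ p := by
    have := hp.two_le
    by_contra hcon
    have : p = 4 := by omega
    subst this
    exact absurd hp (by norm_num)
  by_contra hcon
  push Not at hcon
  have g1 := hcon 1 (fun h => by have := Nat.le_of_dvd (by norm_num) h; omega)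
  have g2 := hcon 2 (fun h => by have := Nat.le_of_dvd (by norm_num) h; omega)
  have g3 := hcon 3 (fun h => by have := Nat.le_of_dvd (by norm_num) h; omega)
  have h4 := dvd_sub (g2.mul_left 2) (dvd_add g1 g3)
  have e : 2 * ((-1) * ((2 : ℕ) : ℤ) ^ 2 + (-b) * ((2 : ℕ) : ℤ) + (n - c)) -
      ((-1) * ((1 : ℕ) : ℤ) ^ 2 + (-b) * ((1 : ℕ) : ℤ) + (n - c) +
        ((-1) * ((3 : ℕ) : ℤ) ^ 2 + (-b) * ((3 : ℕ) : ℤ) + (n - c))) = ((2 : ℕ) : ℤ) := by
    push_cast
    ring
  rw [e] at h4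
  have h5 : p ∣ 2 := by exact_mod_cast h4
  have := Nat.le_of_dvd (by norm_num) h5
  omega

lemma fam (A N : ℕ) (hN : 3 ≤ N) (f : ℕ → ℤ) (h : Family A N f) :
    ∃ (F : Polynomial ℤ) (g : ℤ → ℤ), Pool.Agent.R490.PA.Good 2 ((N : ℤ) ^ (A + 1)) F g ∧
      ∀ n : ℕ, g n = f n := by
  obtain ⟨b, c, n, hbc, h3, hn, hnf, hb, hc, hnN, rfl⟩ := h
  have hNz : (3 : ℤ) ≤ N := by exact_mod_cast hN
  have hA1 : (1 : ℤ) ≤ (N : ℤ) ^ A := one_le_pow₀ (by linarith)
  have hpow : (N : ℤ) ^ (A + 1) = (N : ℤ) ^ A * N := by ring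
  have hbig : 3 * (N : ℤ) ^ A ≤ (N : ℤ) ^ (A + 1) := by
    rw [hpow]
    nlinarith
  refine ⟨Pool.Agent.TH464.PW.quad (-1) (-b) (n - c), fun x => (-1) * x ^ 2 + (-b) * x + (n - c),
    { ev := fun x => by
        unfold Pool.Agent.TH464.PW.quad
        simp
      irr := Pool.Agent.TH464.PW.quad_irr (-1) (-b) (n - c) (by norm_num) (fun p hp h => by
        have h1 : (p : ℤ) ∣ 1 := by
          have := (dvd_neg (a := (p : ℤ)) (b := 1)).1 h.1
          exact this
        have h2 : p ∣ 1 := by exact_mod_cast h1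
        exact hp.one_lt.ne' (Nat.dvd_one.1 h2)) (by
        rintro ⟨m, hm⟩
        have h4 : m * m = b * b + 4 * (n - c) := by linarith
        have h5 : Even (m - b) := by
          by_contra hcon
          rw [Int.not_even_iff_odd] at hcon
          have h6 : Odd (m + b) := by
            have e : m + b = (m - b) + 2 * b := by ring
            rw [e]
            exact hcon.add_even (even_two_mul b)
          have h7 : Odd ((m - b) * (m + b)) := hcon.mul h6
          have e : (m - b) * (m + b) = 2 * (2 * (n - c)) := by linarith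
          rw [e] at h7
          exact (Int.not_even_iff_odd.2 h7) (even_two_mul _)
        obtain ⟨x, hx⟩ := h5
        apply hnf x
        have h6 : m = 2 * x + b := by linarith
        rw [h6] at h4
        linarith)
      deg := by rw [Pool.Agent.TH464.PW.quad_deg _ _ _ (by norm_num)]
      degD := by rw [Pool.Agent.TH464.PW.quad_deg _ _ _ (by norm_num)]
      hgt := fun k => Pool.Agent.Y879.GL.quad_coeff _ _ _ k _ (by
          rw [abs_neg, abs_one]
          linarith) (by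
          rw [abs_neg]
          linarith) (by
          have := abs_sub n c
          linarith)
      adm := fun p hp => adm b c n hbc h3 hn p hp }, fun x => by
        show (-1) * (x : ℤ) ^ 2 + (-b) * x + (n - c) = n - ((x : ℤ) ^ 2 + b * x + c)
        ring⟩

/-- **The gap laws.** For every natural `A`, `θ > 0`, `l₀`, `x₀` and `ε > 0` there is `r₀` such that for all
`r ≥ r₀` and all large `X` the following holds uniformly for ALL functions `f` of `Family A X`
(`g x = n - f x`, `f x = x ^ 2 + b x + c` admissible, `n` odd and not a value of `f`), and for ALL intervals `(Z, Z + Y]` with `Y ≥ X ^ θ`: the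
number `Far` of the good `m` in the interval, with fewer than `l` good integers in `[m - T, m)`, is the value
`Y V ∑_{j < l} exp (- T V) (T V) ^ j / j!` for the Poisson process of density `V`, up to `ε Y V`, for all
`l ≤ l₀` and all `T`, and for all `l` and all `T ≤ x₀ / V`. (For `T = 0`, `l = 1` this is the number of
the good integers in the interval.) -/
theorem result (A : ℕ) (θ : ℝ) (hθ : 0 < θ) (l₀ : ℕ) (x₀ ε : ℝ) (hε : 0 < ε) :
    ∃ r₀ : ℕ, 2 ≤ r₀ ∧ ∀ r : ℕ, r₀ ≤ r → ∀ᶠ X : ℕ in atTop, ∀ f : ℕ → ℤ, Family A X f →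
      ∀ Z Y : ℕ, (X : ℝ) ^ θ ≤ Y → ∀ l T : ℕ, (l ≤ l₀ ∨ T * V f X r ≤ x₀) →
        |(Far f X r l T Z Y : ℝ) - Y * V f X r *
          ∑ j ∈ range l, Real.exp (-(T * V f X r)) * (T * V f X r) ^ j / j.factorial| ≤
          ε * (Y * V f X r) := by
  obtain ⟨r₀, hr₀, h⟩ := Pool.Agent.R463.TP.gapsT 2 (A + 1) (by norm_num) θ hθ l₀ x₀ ε hε
  refine ⟨r₀, hr₀, fun r hr => ?_⟩
  filter_upwards [h r hr, eventually_ge_atTop 3] with X h1 h2 f hf Z Y hY l T hT
  obtain ⟨F, g, hF, hg⟩ := fam A X h2 f hf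
  rw [V_eq f g hg] at hT ⊢
  rw [Far_eq f g hg]
  exact h1 F g hF Z Y hY l T hT

end Pool.Agent.Results.MP_d9bc60_nt.GapLaws
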