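import Mathlib
import Pool.Agent.Y879.GL.Pattern

set_option autoImplicit false

/-!
# The gap laws for almost prime `k`-tuples with arbitrary fixed shifts

For every admissible tuple `h`, in each admissible residue class `c` modulo `M`: the `n ≡ c (mod M)` for which
no `n + h i` has a prime factor `≤ X ^ (1 / r)` follow each other as in a Poisson process, in ALL intervals of
length at least `X ^ θ`.
-/

namespace Pool.Agent.Results.MP_e87c7d_nt.GapLaws

open Finset Filter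

/-- A tuple `h` of distinct natural numbers, a modulus `M > h i` whose prime factors are exactly the primes
`p ≤ P`, where `P ≥ k` and no prime `p > P` divides a difference `h i - h j`, `i ≠ j`, and a residue class `c`
modulo `M` with all `c + h i` prime to `M`. -/
structure Tuple {k : ℕ} (P M c : ℕ) (h : Fin k → ℕ) : Prop where
  pos : 0 < k
  inj : Function.Injective h
  le : k ≤ P
  M0 : 0 < M
  lt : ∀ i, h i < M
  pr : ∀ p : ℕ, p.Prime → (p ∣ M ↔ p ≤ P)
  dif : ∀ i j, i ≠ j → ∀ p : ℕ, p.Prime → P < p → ¬ (p : ℤ) ∣ (h i : ℤ) - h j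
  cM : c < M
  cop : ∀ i, Nat.Coprime M (c + h i)

/-- `n ≡ c` modulo `M` and no `n + h i` has a prime factor `p ≤ X ^ (1 / r)` -/
def Good {k : ℕ} (M c : ℕ) (h : Fin k → ℕ) (X r n : ℕ) : Prop :=
  n % M = c ∧ ∀ p : ℕ, p.Prime → (p : ℝ) ≤ (X : ℝ) ^ (1 / (r : ℝ)) → ∀ i, ¬ p ∣ n + h i

/-- the density: `1 / M` times the product of `1 - k / p` over the primes `P < p ≤ X ^ (1 / r)` -/
noncomputable def V (P M k X r : ℕ) : ℝ :=
  (∏ p ∈ (Ioc P ⌊(X : ℝ) ^ (1 / (r : ℝ))⌋₊).filter Nat.Prime, (1 - (k : ℝ) / p)) / M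

open Classical in
/-- the number of the good `m` in `(Z, Z + Y]` for which fewer than `l` of the integers in `[m - T, m)`
are good -/
noncomputable def Far {k : ℕ} (M c : ℕ) (h : Fin k → ℕ) (X r l T Z Y : ℕ) : ℕ :=
  ((Ioc Z (Z + Y)).filter (fun m => Good M c h X r m ∧
    ((Ico (m - T) m).filter (fun n => Good M c h X r n)).card < l)).card

lemma good_iff {k : ℕ} (M c : ℕ) (h : Fin k → ℕ) (X r n : ℕ) :
    Good M c h X r n ↔ Pool.Agent.Y879.GL.Rg M c h ⌊(X : ℝ) ^ (1 / (r : ℝ))⌋₊ n := by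
  unfold Good Pool.Agent.Y879.GL.Rg
  constructor
  · rintro ⟨h1, h2⟩
    exact ⟨h1, fun p hp hpy => h2 p hp ((Nat.le_floor_iff (by positivity)).1 hpy)⟩
  · rintro ⟨h1, h2⟩
    exact ⟨h1, fun p hp hpy => h2 p hp (Nat.le_floor hpy)⟩

lemma Far_eq {k : ℕ} (M c : ℕ) (h : Fin k → ℕ) (X r l T Z Y : ℕ) :
    Far M c h X r l T Z Y =
      Pool.Agent.TH464.PO.Pk (Pool.Agent.Y879.GL.Rg M c h ⌊(X : ℝ) ^ (1 / (r : ℝ))⌋₊) l T Z Y := by
  classical
  unfold Far Pool.Agent.TH464.PO.Pk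
  congr 1
  apply filter_congr
  intro m _
  rw [good_iff]
  have : (Ico (m - T) m).filter (fun n => Good M c h X r n) =
      (Ico (m - T) m).filter (Pool.Agent.Y879.GL.Rg M c h ⌊(X : ℝ) ^ (1 / (r : ℝ))⌋₊) :=
    filter_congr fun n _ => good_iff M c h X r n
  rw [this]

/-- **The gap laws for almost prime `k`-tuples.** (1) For every tuple `h` of `k ≥ 1` distinct natural
numbers without local obstruction (for every prime `p` some `n` makes `p` divide none of the `n + h i`)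
there are `P`, `M`, `c` with `Tuple P M c h`. (2) Let `Tuple P M c h`. For `θ, ε > 0`, `l₀` and `x₀` there
is `r₀` such that for all `r ≥ r₀` and all large `X` the following holds for ALL intervals `(Z, Z + Y]`,
`Z ≥ c`, with `Y ≥ X ^ θ`: the number `Far` of the good `m` in the interval, with fewer than `l` good
integers in `[m - T, m)`, is the value `Y V ∑_{j < l} exp (- T V) (T V) ^ j / j!` for the Poisson process
of density `V`, up to `ε Y V`, for all `l ≤ l₀` and all `T`, and for all `l` and all `T ≤ x₀ / V`. (For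
`T = 0`, `l = 1` this is the number of the good integers in the interval.) -/
theorem result : (∀ (k : ℕ) (h : Fin k → ℕ), 0 < k → Function.Injective h →
      (∀ p : ℕ, p.Prime → ∃ n : ℕ, ∀ i, ¬ p ∣ n + h i) → ∃ P M c : ℕ, Tuple P M c h) ∧
    ∀ (k : ℕ) (h : Fin k → ℕ) (P M c : ℕ), Tuple P M c h → ∀ θ : ℝ, 0 < θ → ∀ (l₀ : ℕ) (x₀ ε : ℝ), 0 < ε →
    ∃ r₀ : ℕ, ∀ r : ℕ, r₀ ≤ r → ∀ᶠ X : ℕ in atTop,
      ∀ Z Y : ℕ, c ≤ Z → (X : ℝ) ^ θ ≤ Y → ∀ l T : ℕ, (l ≤ l₀ ∨ T * V P M k X r ≤ x₀) →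
        |(Far M c h X r l T Z Y : ℝ) - Y * V P M k X r *
          ∑ j ∈ range l, Real.exp (-(T * V P M k X r)) * (T * V P M k X r) ^ j / j.factorial| ≤
          ε * (Y * V P M k X r) := by
  refine ⟨?_, ?_⟩
  · intro k h hk hinj hadm
    classical
    obtain ⟨K, hK⟩ : ∃ K : ℕ, ∀ i, h i ≤ K := ⟨∑ i, h i, fun i =>
      single_le_sum (f := h) (fun _ _ => Nat.zero_le _) (mem_univ i)⟩
    obtain ⟨q, hq, hqp⟩ := Nat.exists_infinite_primes (K + k + 2)
    set S : Finset ℕ := (range (q + 1)).filter Nat.Prime with hS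
    have hSp : ∀ p ∈ S, p.Prime := fun p hp => (mem_filter.1 hp).2
    have hcop : (S : Set ℕ).Pairwise (fun a b => Nat.Coprime a b) := by
      intro a ha b hb hab
      exact (Nat.coprime_primes (hSp a ha) (hSp b hb)).2 hab
    choose! n hn using hadm
    obtain ⟨m, hm⟩ : ∃ m : ℕ, ∀ p ∈ S, m ≡ n p [MOD p] := by
      obtain ⟨m, hm⟩ := Nat.chineseRemainderOfFinset n id S (fun p hp => (hSp p hp).ne_zero) hcop
      exact ⟨m, hm⟩
    have hM0 : 0 < ∏ p ∈ S, p := prod_pos fun p hp => (hSp p hp).pos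
    have hdvd : ∀ p : ℕ, p.Prime → (p ∣ ∏ p ∈ S, p ↔ p ≤ q) := by
      intro p hp
      constructor
      · intro h1
        obtain ⟨r, hr, hpr⟩ := (Prime.dvd_finset_prod_iff hp.prime (fun p => p)).1 h1
        rw [(Nat.prime_dvd_prime_iff_eq hp (hSp r hr)).1 hpr]
        have := mem_range.1 (mem_filter.1 hr).1
        omega
      · intro h1
        exact dvd_prod_of_mem (fun p => p) (mem_filter.2 ⟨mem_range.2 (by omega), hp⟩)
    refine ⟨q, ∏ p ∈ S, p, m % ∏ p ∈ S, p, hk, hinj, by omega, hM0, ?_, hdvd, ?_, Nat.mod_lt _ hM0, ?_⟩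
    · intro i
      have h2 := Nat.le_of_dvd hM0 ((hdvd q hqp).2 le_rfl)
      have := hK i
      omega
    · intro i j hij p hp hqp' hd
      have h1 : (h i : ℤ) - h j = 0 := by
        apply Int.eq_zero_of_abs_lt_dvd hd
        have := hK i
        have := hK j
        rw [abs_lt]
        constructor <;> omega
      exact hij (hinj (by omega))
    · intro i
      rw [Nat.coprime_iff_gcd_eq_one]
      by_contra hne
      obtain ⟨p, hp, hpd⟩ := Nat.exists_prime_and_dvd hne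
      have h1 : p ∣ ∏ p ∈ S, p := hpd.trans (Nat.gcd_dvd_left _ _)
      have h2 : p ∣ m % (∏ p ∈ S, p) + h i := hpd.trans (Nat.gcd_dvd_right _ _)
      have hpS : p ∈ S := mem_filter.2 ⟨mem_range.2 (by have := (hdvd p hp).1 h1; omega), hp⟩
      apply hn p hp i
      have h3 : m % (∏ p ∈ S, p) ≡ n p [MOD p] :=
        ((Nat.mod_modEq m _).of_dvd h1).trans (hm p hpS)
      exact (Nat.modEq_zero_iff_dvd).1 (((Nat.ModEq.add_right (h i) h3).symm).trans
        ((Nat.modEq_zero_iff_dvd).2 h2))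
  · intro k h P M c S θ hθ l₀ x₀ ε hε
    have hP : Pool.Agent.Y879.GL.Pat P M c h :=
      ⟨S.M0, S.cM, S.pos, S.le, S.pr, S.cop, S.inj, S.dif⟩
    obtain ⟨r₀, H⟩ := Pool.Agent.Y879.GL.gap_pat hP S.lt θ hθ l₀ x₀ ε hε
    refine ⟨r₀, fun r hr => ?_⟩
    filter_upwards [H r hr] with X hX Z Y hZ hY l T hT
    have h1 := hX Z Y hZ hY l T hT
    rw [Far_eq]
    exact h1

end Pool.Agent.Results.MP_e87c7d_nt.GapLaws
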