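import Mathlib
import Pool.Agent.R463.LinT

set_option autoImplicit false

/-!
# The gap laws for almost prime quadruplets in arithmetic progressions to large moduli

For `H = {0, 2, 6, 8}`, uniformly for all moduli `q ≤ X ^ A` and in ALL intervals of length at least `X ^ θ`:
the `n ≡ c (mod q)` for which none of `n, n + 2, n + 6, n + 8` has a prime factor `≤ X ^ (1 / r)` follow each other
as in a Poisson process.
-/

namespace Pool.Agent.Results.MP_fc51f7_nt.GapLaws

open Finset Filter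

/-- for `n = q m + c` none of the `n + h`, `h ∈ H`, has a prime factor `p ≤ X ^ (1 / r)` -/
def Good (H : Finset ℕ) (q c X r m : ℕ) : Prop :=
  ∀ p : ℕ, p.Prime → (p : ℝ) ≤ (X : ℝ) ^ (1 / (r : ℝ)) → ∀ h ∈ H, ¬ p ∣ q * m + c + h

/-- `0` for the prime factors of `q`, otherwise the number of the `n` modulo `p` for which `p` divides some
`n + h`, `h ∈ H` -/
def nu (H : Finset ℕ) (q p : ℕ) : ℕ :=
  if p ∣ q then 0 else ((range p).filter (fun n : ℕ => ∃ h ∈ H, p ∣ n + h)).card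

/-- the density of the good integers: the product of `1 - nu(p) / p` over the primes `p ≤ X ^ (1 / r)` -/
noncomputable def V (H : Finset ℕ) (q X r : ℕ) : ℝ :=
  ∏ p ∈ (Icc 1 ⌊(X : ℝ) ^ (1 / (r : ℝ))⌋₊).filter Nat.Prime, (1 - (nu H q p : ℝ) / p)

open Classical in
/-- the number of the good `m` in `(Z, Z + Y]` with fewer than `l` good integers in `[m - T, m)` -/
noncomputable def Far (H : Finset ℕ) (q c X r l T Z Y : ℕ) : ℕ :=
  ((Ioc Z (Z + Y)).filter (fun m => Good H q c X r m ∧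
    ((Ico (m - T) m).filter (fun n => Good H q c X r n)).card < l)).card

lemma adm (H : Finset ℕ) (hH : H = {0, 2, 6, 8}) :
    2 ≤ H.card ∧ ∀ p : ℕ, p.Prime → ∃ n : ℕ, ∀ h ∈ H, ¬ p ∣ n + h := by
  subst hH
  exact ⟨by decide, Pool.Agent.R463.LT.adm_two _ 5 101 (by decide)⟩

lemma lt_q (H : Finset ℕ) (hH : H = {0, 2, 6, 8}) (q : ℕ) (hq : 8 < q) : ∀ h ∈ H, h < q := by
  subst hH
  intro h hh
  simp only [mem_insert, mem_singleton] at hh
  omega

/-- **The gap laws for almost prime quadruplets in progressions.** For `A`, `θ > 0`, `l₀`, `x₀` and `ε > 0` there is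
`r₀` such that for all `r ≥ r₀` and all large `X` the following holds uniformly for ALL moduli
`8 < q ≤ X ^ A` and residues `c ≤ X ^ A` with all `c + h`, `h ∈ H`, prime to `q`, and for ALL intervals
`(Z, Z + Y]` with `Y ≥ X ^ θ`: the number `Far` of the good `m` in the interval, with fewer than `l` good
integers in `[m - T, m)`, is the value `Y V ∑_{j < l} exp (- T V) (T V) ^ j / j!` for the Poisson process of
density `V`, up to `ε Y V`, for all `l ≤ l₀` and all `T`, and for all `l` and all `T ≤ x₀ / V`. (For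
`T = 0`, `l = 1` this is the number of the good integers in the interval.) -/
theorem result (H : Finset ℕ) (hH : H = {0, 2, 6, 8}) (A : ℕ) (θ : ℝ) (hθ : 0 < θ) (l₀ : ℕ)
    (x₀ ε : ℝ) (hε : 0 < ε) :
    ∃ r₀ : ℕ, 2 ≤ r₀ ∧ ∀ r : ℕ, r₀ ≤ r → ∀ᶠ X : ℕ in atTop, ∀ q c : ℕ, 8 < q → q ≤ X ^ A →
      c ≤ X ^ A → (∀ h ∈ H, Nat.Coprime q (c + h)) →
      ∀ Z Y : ℕ, (X : ℝ) ^ θ ≤ Y → ∀ l T : ℕ, (l ≤ l₀ ∨ T * V H q X r ≤ x₀) →
        |(Far H q c X r l T Z Y : ℝ) - Y * V H q X r *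
          ∑ j ∈ range l, Real.exp (-(T * V H q X r)) * (T * V H q X r) ^ j / j.factorial| ≤
          ε * (Y * V H q X r) := by
  obtain ⟨r₀, hr₀, h⟩ := Pool.Agent.R463.LT.gapsH H (adm H hH).1 (adm H hH).2 A θ hθ l₀ x₀ ε hε
  refine ⟨r₀, hr₀, fun r hr => ?_⟩
  filter_upwards [h r hr] with X hX q c hq hqX hcX hcop Z Y hY l T hT
  exact hX q c (by omega) hqX hcX hcop (lt_q H hH q hq) Z Y hY l T hT

end Pool.Agent.Results.MP_fc51f7_nt.GapLaws
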