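import Mathlib
import Pool.Agent.R463.NarLin
import Pool.Agent.R463.Quad

set_option autoImplicit false

/-!
# Narrow progressions in arbitrary sets of prime or almost prime values of `n ^ 2 + 1`
-/

namespace Pool.Agent.Results.MP_7169d5_nt.NarrowProgressions

open Finset Filter

/-- The `n` such that all prime factors of `n ^ 2 + 1` are larger than `n ^ (1 / r)`. -/
def RoughAt (r : ℕ) : Set ℕ :=
  {n | ∀ p : ℕ, p.Prime → p ∣ n ^ 2 + 1 → (n : ℝ) ^ (1 / (r : ℝ)) < (p : ℝ)}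

/-- `n` is a term of an `l`-term arithmetic progression with difference at most `D`, all terms of which
are elements of `A` in the interval `(a, b]`. -/
def InProgression (A : Set ℕ) (l : ℕ) (D : ℝ) (a b n : ℕ) : Prop :=
  ∃ u d : ℕ, 1 ≤ d ∧ (d : ℝ) ≤ D ∧ (∀ i < l, u + i * d ∈ A ∧ a < u + i * d ∧ u + i * d ≤ b) ∧
    ∃ i < l, n = u + i * d

/-- all `n ≥ 2` for which `n ^ 2 + 1` is a prime are in `RoughAt r` -/
theorem prime_sub (r : ℕ) (hr : 2 ≤ r) (n : ℕ) (hn : 2 ≤ n) (hp : (n ^ 2 + 1).Prime) : n ∈ RoughAt r := by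
  intro p hpp hd
  have h2 : p = n ^ 2 + 1 := (Nat.prime_dvd_prime_iff_eq hpp hp).1 hd
  have h3 : n ≤ p := by
    rw [h2]
    nlinarith
  have hn1 : (1 : ℝ) < n := by exact_mod_cast (by omega : 1 < n)
  have hr2 : (2 : ℝ) ≤ r := by exact_mod_cast hr
  have h4 : (n : ℝ) ^ (1 / (r : ℝ)) < n := by
    have h5 : (1 / (r : ℝ)) < 1 := by
      rw [div_lt_one (by linarith)]
      linarith
    have := Real.rpow_lt_rpow_of_exponent_lt hn1 h5
    rwa [Real.rpow_one] at this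
  exact h4.trans_le (by exact_mod_cast h3)

open Classical in
/-- **Narrow progressions.**
(1) For every `r ≥ 2`, all `n ≥ 2` for which `n ^ 2 + 1` is a prime belong to `RoughAt r`, that is,
`n ^ 2 + 1` has no prime factor `≤ n ^ (1 / r)`;
(2) let `θ > 0`, `r, l ≥ 2` and `ε > 0`. There is an exponent `B` such that for all large `X`, all
`X ^ θ ≤ Y ≤ X` and EVERY set `A` of numbers `n` such that `n ^ 2 + 1` has no prime factor
`≤ n ^ (1 / r)`, for instance every set of `n` for which it is prime: all but at most `ε Y / log X` of the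
elements of `A` in `(X, X + Y]` are terms of `l`-term arithmetic progressions, contained in the part of
`A` in `(X, X + Y]`, with difference at most `(log X) ^ B`. -/
theorem result :
    (∀ r : ℕ, 2 ≤ r → ∀ n : ℕ, 2 ≤ n → (n ^ 2 + 1).Prime → n ∈ RoughAt r) ∧
    ∀ θ : ℝ, 0 < θ → ∀ r : ℕ, 2 ≤ r → ∀ l : ℕ, 2 ≤ l → ∀ ε : ℝ, 0 < ε →
    ∃ B : ℕ, ∀ᶠ X : ℕ in atTop, ∀ Y : ℕ, (X : ℝ) ^ θ ≤ Y → Y ≤ X →
      ∀ A : Set ℕ, A ⊆ RoughAt r →
        (((Ioc X (X + Y)).filter (fun n : ℕ =>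
          n ∈ A ∧ ¬ InProgression A l (Real.log X ^ B) X (X + Y) n)).card : ℝ) ≤
        ε * (Y / Real.log X) := by
  refine ⟨fun r hr n hn hp => prime_sub r hr n hn hp, ?_⟩
  intro θ hθ r hr l hl ε hε
  have hsq : ¬ IsSquare ((0 : ℤ) ^ 2 - 4 * 1 * 1) := by
    rintro ⟨x, hx⟩
    nlinarith [mul_self_nonneg x]
  obtain ⟨B, hB⟩ := Pool.Agent.Y677.RSZ.narrow (Pool.Agent.TH464.PO.qs 1 0 1)
    (Pool.Agent.TH464.PO.qs_sys 1 0 1 one_pos (fun p hp h => by
      have h1 : p ∣ 1 := by exact_mod_cast h.1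
      exact hp.one_lt.ne' (Nat.dvd_one.1 h1)) (by
        rintro ⟨-, h⟩
        exact absurd h (by decide)) hsq) θ hθ r hr l hl ε hε
  refine ⟨B, ?_⟩
  filter_upwards [hB] with X hX Y hXY hYX A hA
  have h := hX Y hXY hYX A (fun n hn => by
    intro i p hp hd
    refine hA hn p hp ?_
    have h1 := (Pool.Agent.TH464.PO.qs_Q 1 0 1 p n).1 ⟨i, hd⟩
    have h2 : (p : ℤ) ∣ ((n ^ 2 + 1 : ℕ) : ℤ) := by
      have e : ((n ^ 2 + 1 : ℕ) : ℤ) = 1 * (n : ℤ) ^ 2 + 0 * n + 1 := by push_cast; ring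
      rw [e]
      exact h1
    exact_mod_cast h2)
  rw [Fintype.card_fin, pow_one, mul_div_assoc] at h
  refine le_trans (le_of_eq ?_) h
  unfold Pool.Agent.TH977.PW.N
  congr 2
  apply filter_congr
  intro m _
  exact Iff.rfl

end Pool.Agent.Results.MP_7169d5_nt.NarrowProgressions
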