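import Mathlib
import Pool.Agent.R490.PrimeArg

set_option autoImplicit false

/-!
# The numbers `n ^ 2 + a` at prime arguments `n`, uniformly in `a`
-/

namespace Pool.Agent.Results.MP_391708_nt.PrimeArguments

open Finset Filter

/-- `n ^ 2 + a` has no prime factor `p ≤ N ^ (1 / r)` -/
def Rough (a : ℤ) (N r n : ℕ) : Prop :=
  ∀ p : ℕ, p.Prime → (p : ℝ) ≤ (N : ℝ) ^ (1 / (r : ℝ)) → ¬ (p : ℤ) ∣ (n : ℤ) ^ 2 + a

/-- neither `n` nor `n ^ 2 + a` has a prime factor `p ≤ N ^ (1 / r)` -/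
def Good (a : ℤ) (N r n : ℕ) : Prop :=
  ∀ p : ℕ, p.Prime → (p : ℝ) ≤ (N : ℝ) ^ (1 / (r : ℝ)) → ¬ p ∣ n ∧ ¬ (p : ℤ) ∣ (n : ℤ) ^ 2 + a

/-- the number of the residues `n` modulo `p` for which `p` divides `n` or `n ^ 2 + a` -/
def nu (a : ℤ) (p : ℕ) : ℕ := ((range p).filter (fun n : ℕ => p ∣ n ∨ (p : ℤ) ∣ (n : ℤ) ^ 2 + a)).card

/-- the product of `1 - nu(p) / p` over the primes `p ≤ N ^ (1 / r)` -/
noncomputable def V (a : ℤ) (N r : ℕ) : ℝ :=
  ∏ p ∈ (range (⌊(N : ℝ) ^ (1 / (r : ℝ))⌋₊ + 1)).filter Nat.Prime, (1 - (nu a p : ℝ) / p)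

/-- the product of `(1 - nu(p) / p) / (1 - 1 / p)` over the primes `p ≤ N ^ (1 / r)` -/
noncomputable def W (a : ℤ) (N r : ℕ) : ℝ :=
  ∏ p ∈ (range (⌊(N : ℝ) ^ (1 / (r : ℝ))⌋₊ + 1)).filter Nat.Prime,
    (1 - (nu a p : ℝ) / p) / (1 - 1 / (p : ℝ))

open Classical in
/-- the PRIMES `n > N ^ (1 / r)` in `(u, u + Y]` for which `n ^ 2 + a` has no prime factor `≤ N ^ (1 / r)` -/
noncomputable def P (a : ℤ) (N r u Y : ℕ) : Finset ℕ :=
  (Ioc u (u + Y)).filter (fun n => n.Prime ∧ (N : ℝ) ^ (1 / (r : ℝ)) < n ∧ Rough a N r n)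

open Classical in
/-- the number of the good integers in `(n, n + T]` -/
noncomputable def Next (a : ℤ) (N r T n : ℕ) : ℕ := ((Ioc n (n + T)).filter (fun m => Good a N r m)).card

/-- the function -/
def q (a : ℤ) (x : ℤ) : ℤ := x ^ 2 + a

lemma le_iff (N r p : ℕ) : p ≤ ⌊(N : ℝ) ^ (1 / (r : ℝ))⌋₊ ↔ (p : ℝ) ≤ (N : ℝ) ^ (1 / (r : ℝ)) :=
  Nat.le_floor_iff (by positivity)

lemma V_eq (a : ℤ) (N r : ℕ) : V a N r = Pool.Agent.R490.PA.D2 (q a) ⌊(N : ℝ) ^ (1 / (r : ℝ))⌋₊ := by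
  classical
  unfold V Pool.Agent.R490.PA.D2 nu q
  apply prod_congr rfl
  intro p _
  congr

lemma W_eq (a : ℤ) (N r : ℕ) : W a N r = Pool.Agent.R490.PA.Wr (q a) ⌊(N : ℝ) ^ (1 / (r : ℝ))⌋₊ := by
  classical
  unfold W Pool.Agent.R490.PA.Wr nu q
  apply prod_congr rfl
  intro p _
  congr

lemma P_eq (a : ℤ) (N r u Y : ℕ) : P a N r u Y =
    Pool.Agent.R490.PA.Pr (q a) ⌊(N : ℝ) ^ (1 / (r : ℝ))⌋₊ u Y := by
  classical
  unfold P Pool.Agent.R490.PA.Pr
  apply filter_congr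
  intro n _
  have h1 : ⌊(N : ℝ) ^ (1 / (r : ℝ))⌋₊ < n ↔ (N : ℝ) ^ (1 / (r : ℝ)) < n := Nat.floor_lt (by positivity)
  have h2 : Pool.Agent.R490.Sg.Ro (q a) ⌊(N : ℝ) ^ (1 / (r : ℝ))⌋₊ n ↔ Rough a N r n := by
    unfold Pool.Agent.R490.Sg.Ro Rough q
    simp only [le_iff]
  rw [h1, h2]

lemma Next_eq (a : ℤ) (N r T n : ℕ) : Next a N r T n =
    Pool.Agent.R490.PA.Nx (q a) ⌊(N : ℝ) ^ (1 / (r : ℝ))⌋₊ T n := by
  classical
  unfold Next Pool.Agent.R490.PA.Nx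
  congr 1
  apply filter_congr
  intro m _
  unfold Pool.Agent.R490.PA.Ro2 Good q
  simp only [le_iff]

open Polynomial in
lemma good (a : ℤ) (hev : Even a) (h3 : a % 3 ≠ 2) (hsq : ¬ IsSquare (-a)) (N A : ℕ) (hN : 1 ≤ N)
    (ha : |a| ≤ (N : ℤ) ^ A) :
    Pool.Agent.R490.PA.Good 2 ((N : ℤ) ^ A) (Pool.Agent.TH464.PW.quad 1 0 a) (q a) where
  ev := fun x => by
    unfold Pool.Agent.TH464.PW.quad q
    simp
  irr := Pool.Agent.TH464.PW.quad_irr 1 0 a one_ne_zero (fun p hp h => by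
    have h1 : p ∣ 1 := by exact_mod_cast h.1
    exact hp.one_lt.ne' (Nat.dvd_one.1 h1)) (by
    rintro ⟨m, hm⟩
    apply hsq
    have h1 : (2 : ℤ) ∣ m := by
      have h2 : (2 : ℤ) ∣ m * m := ⟨2 * -a, by linarith⟩
      exact (Int.prime_two.dvd_or_dvd h2).elim id id
    obtain ⟨c, hc⟩ := h1
    refine ⟨c, ?_⟩
    rw [hc] at hm
    linarith)
  deg := by rw [Pool.Agent.TH464.PW.quad_deg 1 0 a one_ne_zero]
  degD := by rw [Pool.Agent.TH464.PW.quad_deg 1 0 a one_ne_zero]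
  hgt := fun n => Pool.Agent.Y879.GL.quad_coeff 1 0 a n _ (by
    rw [abs_one]
    exact one_le_pow₀ (by exact_mod_cast hN)) (by rw [abs_zero]; positivity) ha
  adm := fun p hp => by
    unfold q
    by_cases h2 : p = 2
    · subst h2
      refine ⟨1, by norm_num, ?_⟩
      obtain ⟨c, hc⟩ := hev
      push_cast
      omega
    · by_cases h3' : p = 3
      · subst h3'
        refine ⟨1, by norm_num, ?_⟩
        push_cast
        omega
      · have hp5 : 5 ≤ p := by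
          have := hp.two_le
          by_contra hcon
          have : p = 4 := by omega
          subst this
          exact absurd hp (by norm_num)
        by_cases h1 : (p : ℤ) ∣ 1 + a
        · refine ⟨2, fun h => by
            have := Nat.le_of_dvd (by norm_num) h
            omega, fun h => ?_⟩
          have h4 := dvd_sub h h1
          have e : (((2 : ℕ) : ℤ)) ^ 2 + a - (1 + a) = 3 := by push_cast; ring
          rw [e] at h4
          have h5 : p ∣ 3 := by exact_mod_cast h4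
          have := Nat.le_of_dvd (by norm_num) h5
          omega
        · refine ⟨1, fun h => by
            have := Nat.le_of_dvd (by norm_num) h
            omega, ?_⟩
          rw [Nat.cast_one, one_pow]
          exact h1

/-- **The values `n ^ 2 + a` at primes `n`.** For all `A`, `θ, δ > 0`, `x₀` and `0 < ε ≤ 1` there is `r₀` such
that for all `r ≥ r₀` and all large `N` the following holds uniformly for ALL even integers `a`, `|a| ≤ N ^ A`,
`a` not congruent to `2` modulo `3`, not of the form `- m ^ 2`, for all `X ≥ N ^ θ` and all windows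
`(u, u + Y]` in `(0, X]` with `Y ≥ δ X`:
(1) the number of the PRIMES `n > N ^ (1 / r)` in the window for which `n ^ 2 + a` has no prime factor
`≤ N ^ (1 / r)` is `(1 + η) Y W / log X`, `|η| ≤ ε`;
(2) for `T V ≤ x₀` the number of the good integers in `(n, n + T]`, `n` running over the primes in (1), has
the Poisson law of mean `T V`, up to `ε`. -/
theorem result (A : ℕ) (θ δ : ℝ) (hθ : 0 < θ) (hδ : 0 < δ) (hδ1 : δ ≤ 1) (x₀ ε : ℝ) (hε : 0 < ε)
    (hε1 : ε ≤ 1) :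
    ∃ r₀ : ℕ, 2 ≤ r₀ ∧ ∀ r : ℕ, r₀ ≤ r → ∀ᶠ N : ℕ in atTop, ∀ a : ℤ, Even a → a % 3 ≠ 2 →
      ¬ IsSquare (-a) → |a| ≤ (N : ℤ) ^ A →
      0 < W a N r ∧
      ∀ X : ℕ, (N : ℝ) ^ θ ≤ X → ∀ u Y : ℕ, δ * X ≤ Y → u + Y ≤ X →
        |((P a N r u Y).card : ℝ) * Real.log X - Y * W a N r| ≤ ε * (Y * W a N r) ∧
        ∀ T : ℕ, T * V a N r ≤ x₀ → ∀ J : Finset ℕ,
          |(((P a N r u Y).filter (fun n => Next a N r T n ∈ J)).card : ℝ) -
            (P a N r u Y).card *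
              ∑ j ∈ J, Real.exp (-(T * V a N r)) * (T * V a N r) ^ j / j.factorial| ≤
            ε * (P a N r u Y).card := by
  obtain ⟨r₀, hr₀, h0⟩ := Pool.Agent.R490.PA.primeS 2 A (by norm_num) θ δ hθ hδ hδ1 x₀ ε hε hε1
  refine ⟨r₀, hr₀, fun r hr => ?_⟩
  filter_upwards [h0 r hr, eventually_ge_atTop 1] with N hN hN1
  intro a h1 h2 h3 h4
  have h5 := hN _ (q a) (good a h1 h2 h3 N A hN1 h4) _ rfl
  rw [← W_eq, ← V_eq] at h5
  refine ⟨h5.1, fun X hX u Y hY huY => ?_⟩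
  have h6 := h5.2 X hX u Y hY huY
  rw [← P_eq] at h6
  refine ⟨h6.1, fun T hT J => ?_⟩
  have h7 := h6.2 T hT J
  simp only [Next_eq]
  exact h7

end Pool.Agent.Results.MP_391708_nt.PrimeArguments
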