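import Mathlib
import Pool.Agent.R490.PrimeArg

set_option autoImplicit false

/-!
# Odd integers as `f(p₁)` plus an almost prime

Uniformly in all admissible quadratic `f` and all odd `n` which are not values of `f`: the number of the primes `p`
for which `n - f(p)` has no small prime factor, and the Poisson law for the good integers which follow them.
-/

namespace Pool.Agent.Results.MP_d9bc60_nt.PrimeArguments

open Finset Filter

/-- the functions `n - f x` with an admissible `f x = x ^ 2 + b x + c` (`b` and `c` have opposite parity, `3`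
does not divide `b`) and an odd `n` which is not a value of `f` at an integer; `|b|, |c|, |n| ≤ N ^ A` -/
def Family (A N : ℕ) (g : ℕ → ℤ) : Prop :=
  ∃ b c n : ℤ, Odd (b + c) ∧ ¬ (3 : ℤ) ∣ b ∧ Odd n ∧ (∀ m : ℤ, m ^ 2 + b * m + c ≠ n) ∧
    |b| ≤ (N : ℤ) ^ A ∧ |c| ≤ (N : ℤ) ^ A ∧ |n| ≤ (N : ℤ) ^ A ∧
    g = fun x : ℕ => n - ((x : ℤ) ^ 2 + b * x + c)

/-- neither `n` nor `f n` has a prime factor `p ≤ X ^ (1 / r)` -/
def Good (f : ℕ → ℤ) (X r n : ℕ) : Prop :=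
  ∀ p : ℕ, p.Prime → (p : ℝ) ≤ (X : ℝ) ^ (1 / (r : ℝ)) → ¬ p ∣ n ∧ ¬ (p : ℤ) ∣ f n

/-- the number of the residues `n` modulo `p` for which `p` divides `n` or `f n` -/
def nu (f : ℕ → ℤ) (p : ℕ) : ℕ := ((range p).filter (fun n : ℕ => p ∣ n ∨ (p : ℤ) ∣ f n)).card

/-- the product of `1 - nu(p) / p` over the primes `p ≤ X ^ (1 / r)` -/
noncomputable def V (f : ℕ → ℤ) (X r : ℕ) : ℝ :=
  ∏ p ∈ (range (⌊(X : ℝ) ^ (1 / (r : ℝ))⌋₊ + 1)).filter Nat.Prime, (1 - (nu f p : ℝ) / p)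

/-- the product of `(1 - nu(p) / p) / (1 - 1 / p)` over the primes `p ≤ X ^ (1 / r)` -/
noncomputable def W (f : ℕ → ℤ) (X r : ℕ) : ℝ :=
  ∏ p ∈ (range (⌊(X : ℝ) ^ (1 / (r : ℝ))⌋₊ + 1)).filter Nat.Prime,
    (1 - (nu f p : ℝ) / p) / (1 - 1 / (p : ℝ))

open Classical in
/-- the PRIMES `n > N ^ (1 / r)` in `(u, u + Y]` for which `f n` has no prime factor `≤ N ^ (1 / r)` -/
noncomputable def P (f : ℕ → ℤ) (N r u Y : ℕ) : Finset ℕ :=
  (Ioc u (u + Y)).filter (fun n => n.Prime ∧ (N : ℝ) ^ (1 / (r : ℝ)) < n ∧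
    ∀ p : ℕ, p.Prime → (p : ℝ) ≤ (N : ℝ) ^ (1 / (r : ℝ)) → ¬ (p : ℤ) ∣ f n)

open Classical in
/-- the number of the good integers in `(n, n + T]` -/
noncomputable def Next (f : ℕ → ℤ) (N r T n : ℕ) : ℕ := ((Ioc n (n + T)).filter (fun m => Good f N r m)).card

lemma le_iff (N r p : ℕ) : p ≤ ⌊(N : ℝ) ^ (1 / (r : ℝ))⌋₊ ↔ (p : ℝ) ≤ (N : ℝ) ^ (1 / (r : ℝ)) :=
  Nat.le_floor_iff (by positivity)

lemma nu_eq (f : ℕ → ℤ) (g : ℤ → ℤ) (hg : ∀ n : ℕ, g n = f n) (p : ℕ)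
    (inst : DecidablePred (fun m : ℕ => p ∣ m ∨ (p : ℤ) ∣ g (m : ℤ))) :
    nu f p = (@Finset.filter ℕ (fun m : ℕ => p ∣ m ∨ (p : ℤ) ∣ g (m : ℤ)) inst (range p)).card := by
  unfold nu
  congr 1
  ext n
  simp only [mem_filter, hg]

lemma V_eq (f : ℕ → ℤ) (g : ℤ → ℤ) (hg : ∀ n : ℕ, g n = f n) (N r : ℕ) :
    V f N r = Pool.Agent.R490.PA.D2 g ⌊(N : ℝ) ^ (1 / (r : ℝ))⌋₊ := by
  classical
  unfold V Pool.Agent.R490.PA.D2
  apply prod_congr rfl
  intro p _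
  rw [nu_eq f g hg p]

lemma W_eq (f : ℕ → ℤ) (g : ℤ → ℤ) (hg : ∀ n : ℕ, g n = f n) (N r : ℕ) :
    W f N r = Pool.Agent.R490.PA.Wr g ⌊(N : ℝ) ^ (1 / (r : ℝ))⌋₊ := by
  classical
  unfold W Pool.Agent.R490.PA.Wr
  apply prod_congr rfl
  intro p _
  rw [nu_eq f g hg p]

lemma P_eq (f : ℕ → ℤ) (g : ℤ → ℤ) (hg : ∀ n : ℕ, g n = f n) (N r u Y : ℕ) :
    P f N r u Y = Pool.Agent.R490.PA.Pr g ⌊(N : ℝ) ^ (1 / (r : ℝ))⌋₊ u Y := by
  classical
  unfold P Pool.Agent.R490.PA.Pr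
  apply filter_congr
  intro n _
  have h1 : ⌊(N : ℝ) ^ (1 / (r : ℝ))⌋₊ < n ↔ (N : ℝ) ^ (1 / (r : ℝ)) < n := Nat.floor_lt (by positivity)
  rw [h1]
  unfold Pool.Agent.R490.Sg.Ro
  simp only [le_iff, hg]

lemma Next_eq (f : ℕ → ℤ) (g : ℤ → ℤ) (hg : ∀ n : ℕ, g n = f n) (N r T n : ℕ) : Next f N r T n =
    Pool.Agent.R490.PA.Nx g ⌊(N : ℝ) ^ (1 / (r : ℝ))⌋₊ T n := by
  classical
  unfold Next Pool.Agent.R490.PA.Nx
  congr 1
  apply filter_congr
  intro m _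
  unfold Pool.Agent.R490.PA.Ro2 Good
  simp only [le_iff, hg]

lemma adm (b c n : ℤ) (hbc : Odd (b + c)) (h3 : ¬ (3 : ℤ) ∣ b) (hn : Odd n) (p : ℕ) (hp : p.Prime) :
    ∃ x : ℕ, ¬ p ∣ x ∧ ¬ (p : ℤ) ∣ (-1) * (x : ℤ) ^ 2 + (-b) * x + (n - c) := by
  by_cases h2 : p = 2
  · subst h2
    refine ⟨1, by norm_num, ?_⟩
    intro h
    obtain ⟨u, hu⟩ := hbc
    obtain ⟨v, hv⟩ := hn
    have e : (-1) * ((1 : ℕ) : ℤ) ^ 2 + (-b) * ((1 : ℕ) : ℤ) + (n - c) = 2 * (v - u - 1) + 1 := by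
      push_cast
      linarith
    rw [e] at h
    push_cast at h
    omega
  by_cases h3' : p = 3
  · subst h3'
    by_contra hcon
    push Not at hcon
    have g1 := hcon 1 (by norm_num)
    have g2 := hcon 2 (by norm_num)
    apply h3
    have h4 := dvd_sub g1 g2
    have e : (-1) * ((1 : ℕ) : ℤ) ^ 2 + (-b) * ((1 : ℕ) : ℤ) + (n - c) -
        ((-1) * ((2 : ℕ) : ℤ) ^ 2 + (-b) * ((2 : ℕ) : ℤ) + (n - c)) = 3 + b := by
      push_cast
      ring
    rw [e] at h4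
    have h5 : (3 : ℤ) ∣ 3 + b := by exact_mod_cast h4
    exact (dvd_add_right (dvd_refl (3 : ℤ))).1 h5
  have hp5 : 5 ≤ p := by
    have := hp.two_le
    by_contra hcon
    have : p = 4 := by omega
    subst this
    exact absurd hp (by norm_num)
  by_contra hcon
  push Not at hcon
  have g1 := hcon 1 (fun h => by have := Nat.le_of_dvd (by norm_num) h; omega)
  have g2 := hcon 2 (fun h => by have := Nat.le_of_dvd (by norm_num) h; omega)
  have g3 := hcon 3 (fun h => by have := Nat.le_of_dvd (by norm_num) h; omega)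
  have h4 := dvd_sub (g2.mul_left 2) (dvd_add g1 g3)
  have e : 2 * ((-1) * ((2 : ℕ) : ℤ) ^ 2 + (-b) * ((2 : ℕ) : ℤ) + (n - c)) -
      ((-1) * ((1 : ℕ) : ℤ) ^ 2 + (-b) * ((1 : ℕ) : ℤ) + (n - c) +
        ((-1) * ((3 : ℕ) : ℤ) ^ 2 + (-b) * ((3 : ℕ) : ℤ) + (n - c))) = ((2 : ℕ) : ℤ) := by
    push_cast
    ring
  rw [e] at h4
  have h5 : p ∣ 2 := by exact_mod_cast h4
  have := Nat.le_of_dvd (by norm_num) h5
  omega

lemma fam (A N : ℕ) (hN : 3 ≤ N) (f : ℕ → ℤ) (h : Family A N f) :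
    ∃ (F : Polynomial ℤ) (g : ℤ → ℤ), Pool.Agent.R490.PA.Good 2 ((N : ℤ) ^ (A + 1)) F g ∧
      ∀ n : ℕ, g n = f n := by
  obtain ⟨b, c, n, hbc, h3, hn, hnf, hb, hc, hnN, rfl⟩ := h
  have hNz : (3 : ℤ) ≤ N := by exact_mod_cast hN
  have hA1 : (1 : ℤ) ≤ (N : ℤ) ^ A := one_le_pow₀ (by linarith)
  have hpow : (N : ℤ) ^ (A + 1) = (N : ℤ) ^ A * N := by ring
  have hbig : 3 * (N : ℤ) ^ A ≤ (N : ℤ) ^ (A + 1) := by
    rw [hpow]
    nlinarith
  refine ⟨Pool.Agent.TH464.PW.quad (-1) (-b) (n - c), fun x => (-1) * x ^ 2 + (-b) * x + (n - c),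
    { ev := fun x => by
        unfold Pool.Agent.TH464.PW.quad
        simp
      irr := Pool.Agent.TH464.PW.quad_irr (-1) (-b) (n - c) (by norm_num) (fun p hp h => by
        have h1 : (p : ℤ) ∣ 1 := by
          have := (dvd_neg (a := (p : ℤ)) (b := 1)).1 h.1
          exact this
        have h2 : p ∣ 1 := by exact_mod_cast h1
        exact hp.one_lt.ne' (Nat.dvd_one.1 h2)) (by
        rintro ⟨m, hm⟩
        have h4 : m * m = b * b + 4 * (n - c) := by linarith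
        have h5 : Even (m - b) := by
          by_contra hcon
          rw [Int.not_even_iff_odd] at hcon
          have h6 : Odd (m + b) := by
            have e : m + b = (m - b) + 2 * b := by ring
            rw [e]
            exact hcon.add_even (even_two_mul b)
          have h7 : Odd ((m - b) * (m + b)) := hcon.mul h6
          have e : (m - b) * (m + b) = 2 * (2 * (n - c)) := by linarith
          rw [e] at h7
          exact (Int.not_even_iff_odd.2 h7) (even_two_mul _)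
        obtain ⟨x, hx⟩ := h5
        apply hnf x
        have h6 : m = 2 * x + b := by linarith
        rw [h6] at h4
        linarith)
      deg := by rw [Pool.Agent.TH464.PW.quad_deg _ _ _ (by norm_num)]
      degD := by rw [Pool.Agent.TH464.PW.quad_deg _ _ _ (by norm_num)]
      hgt := fun k => Pool.Agent.Y879.GL.quad_coeff _ _ _ k _ (by
          rw [abs_neg, abs_one]
          linarith) (by
          rw [abs_neg]
          linarith) (by
          have := abs_sub n c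
          linarith)
      adm := fun p hp => adm b c n hbc h3 hn p hp }, fun x => by
        show (-1) * (x : ℤ) ^ 2 + (-b) * x + (n - c) = n - ((x : ℤ) ^ 2 + b * x + c)
        ring⟩

/-- **The values at prime arguments.** For every natural `A`, `θ > 0`, `0 < δ ≤ 1`, `x₀` and `0 < ε ≤ 1` there
is `r₀` such that for all `r ≥ r₀` and all large `N` the following holds uniformly for ALL functions `f` of
`Family A N` (`g x = n - f x`, `f x = x ^ 2 + b x + c` admissible, `n` odd and not a value of `f`), all `X ≥ N ^ θ` and all windows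
`(u, u + Y]` in `(0, X]` with `Y ≥ δ X`:
(1) the number of the PRIMES `n > N ^ (1 / r)` in the window for which `f n` has no prime factor
`≤ N ^ (1 / r)` is `(1 + η) Y W / log X`, `|η| ≤ ε`;
(2) for `T V ≤ x₀` the number of the good integers in `(n, n + T]`, `n` running over the primes in (1), has
the Poisson law of mean `T V`, up to `ε`. -/
theorem result (A : ℕ) (θ δ : ℝ) (hθ : 0 < θ) (hδ : 0 < δ) (hδ1 : δ ≤ 1) (x₀ ε : ℝ) (hε : 0 < ε)
    (hε1 : ε ≤ 1) :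
    ∃ r₀ : ℕ, 2 ≤ r₀ ∧ ∀ r : ℕ, r₀ ≤ r → ∀ᶠ N : ℕ in atTop, ∀ f : ℕ → ℤ, Family A N f → 0 < W f N r ∧
      ∀ X : ℕ, (N : ℝ) ^ θ ≤ X → ∀ u Y : ℕ, δ * X ≤ Y → u + Y ≤ X →
        |((P f N r u Y).card : ℝ) * Real.log X - Y * W f N r| ≤ ε * (Y * W f N r) ∧
        ∀ T : ℕ, T * V f N r ≤ x₀ → ∀ J : Finset ℕ,
          |(((P f N r u Y).filter (fun n => Next f N r T n ∈ J)).card : ℝ) -
            (P f N r u Y).card *
              ∑ j ∈ J, Real.exp (-(T * V f N r)) * (T * V f N r) ^ j / j.factorial| ≤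
            ε * (P f N r u Y).card := by
  obtain ⟨r₀, hr₀, h0⟩ := Pool.Agent.R490.PA.primeS 2 (A + 1) (by norm_num) θ δ hθ hδ hδ1 x₀ ε hε hε1
  refine ⟨r₀, hr₀, fun r hr => ?_⟩
  filter_upwards [h0 r hr, eventually_ge_atTop 3] with N hN hN1 f hf
  obtain ⟨F, g, hF, hg⟩ := fam A N hN1 f hf
  have h5 := hN F g hF _ rfl
  rw [← W_eq f g hg, ← V_eq f g hg] at h5
  refine ⟨h5.1, fun X hX u Y hY huY => ?_⟩
  have h6 := h5.2 X hX u Y hY huY
  rw [← P_eq f g hg] at h6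
  refine ⟨h6.1, fun T hT J => ?_⟩
  have h7 := h6.2 T hT J
  simp only [Next_eq f g hg]
  exact h7

end Pool.Agent.Results.MP_d9bc60_nt.PrimeArguments
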