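import Mathlib
import Pool.Agent.R463.Pair

set_option autoImplicit false

/-!
# Regular points of arbitrary sets of almost prime pairs `m`, `m + N`

For EVERY even difference `N` (as large as a power of `X`), in every admissible progression and short
interval: almost all elements of EVERY set of `m` for which `m` and `m + N` have no small prime factors,
for instance of every set of `m` such that both are prime, are regular points of the set.
-/

namespace Pool.Agent.Results.MP_70e905_nt.RegularPoints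

open Finset Filter
open Pool.Agent.R463.PS

/-- for `m = q n + a` neither `m` nor `m + N` has a prime factor `p ≤ X ^ (1 / r)` -/
def Good (N q a X r n : ℕ) : Prop :=
  ∀ p : ℕ, p.Prime → (p : ℝ) ≤ (X : ℝ) ^ (1 / (r : ℝ)) →
    ¬ (p : ℤ) ∣ (q : ℤ) * n + a ∧ ¬ (p : ℤ) ∣ (q : ℤ) * n + a + N

/-- `0` for the prime factors of `q`, `1` for the other prime factors of `N`, `2` for the other primes -/
def nu (N q p : ℕ) : ℕ := if p ∣ q then 0 else if p ∣ N then 1 else 2

/-- the density: the product of `1 - nu(p) / p` over the primes `p ≤ X ^ (1 / r)` -/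
noncomputable def V (N q X r : ℕ) : ℝ :=
  ∏ p ∈ (Icc 1 ⌊(X : ℝ) ^ (1 / (r : ℝ))⌋₊).filter Nat.Prime, (1 - (nu N q p : ℝ) / p)

lemma good_iff (N q a X r n : ℕ) : Good N q a X r n ↔ Sifted (Pool.Agent.Y879.GL.pf 1 N q a) X r n := by
  rw [pair_sift]
  unfold Good
  have e : (1 : ℤ) * (q * n + a) + N = q * n + a + N := by ring
  rw [e]

lemma V_eq (N q a X r : ℕ) (hqa : Nat.Coprime q a) (hqf : IsCoprime (q : ℤ) (1 * a + (N : ℤ))) :
    V N q X r = Pool.Agent.R463.PS.V (Pool.Agent.Y879.GL.pf 1 N q a) X r := by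
  unfold V Pool.Agent.R463.PS.V
  apply prod_congr rfl
  intro p hp
  rw [pair_om 1 N (by norm_num) q a p (mem_filter.1 hp).2 hqa hqf]
  unfold nu
  simp only [Int.natCast_dvd_natCast]

open Classical in
/-- **Regular points of arbitrary sets of almost prime pairs with a given difference.**

`Regular S V c δ B Y n`: every interval `(n - s, n + t]`, `s, t ≤ Y`, with `c (s + t) V ≥ 1` contains
between `c (s + t) V` and `(s + t) V / c` elements of `S`, and for all scales `1 / V ≤ 2 ^ j ≤ Y` with at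
most `B` exceptions there is a density `c ≤ lam ≤ 1 / c` such that all intervals `(n - s, n + t]`,
`s, t ≤ 2 ^ j`, contain `lam (s + t) V` elements of `S`, up to `δ 2 ^ j V`.

For `A, θ > 0` there is `r₀` such that for all `r ≥ r₀` and `ε > 0` there is `c > 0`, and for all `δ > 0`
there is `B`, such that for all large `X` the following holds uniformly for ALL even `N` with
`0 < N ≤ X ^ A`, all moduli `1 ≤ q ≤ X ^ A` and residues `a ≤ X ^ A` with `q` prime to `a` and to
`a + N`, all intervals `(u, u + Y]` with `X ^ θ ≤ Y ≤ X`, `Y ≤ u`, and EVERY set `S` of good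
integers: at most `ε Y V` elements of `S` in `(u, u + Y]` are not regular points of `S`. -/
theorem result (A θ : ℝ) (hA : 0 < A) (hθ : 0 < θ) :
    ∃ r₀ : ℕ, 2 ≤ r₀ ∧ ∀ r : ℕ, r₀ ≤ r → ∀ ε : ℝ, 0 < ε → ∃ c : ℝ, 0 < c ∧ ∀ δ : ℝ, 0 < δ →
      ∃ B : ℕ, ∀ᶠ X : ℕ in atTop, ∀ N q a : ℕ, Even N → 0 < N → (N : ℝ) ≤ (X : ℝ) ^ A →
      1 ≤ q → (q : ℝ) ≤ (X : ℝ) ^ A → (a : ℝ) ≤ (X : ℝ) ^ A → Nat.Coprime q a →
      IsCoprime (q : ℤ) ((a : ℤ) + N) →
      ∀ u Y : ℕ, (X : ℝ) ^ θ ≤ Y → Y ≤ X → Y ≤ u →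
      ∀ S : Set ℕ, (∀ n ∈ S, Good N q a X r n) →
        (((Ioc u (u + Y)).filter (fun n => n ∈ S ∧ ¬ Regular S (V N q X r) c δ B Y n)).card : ℝ) ≤
          ε * (Y * V N q X r) := by
  obtain ⟨r₀, hr₀, h⟩ := regular 2 1 1 (A + 1) 1 θ (by linarith) one_pos hθ
  refine ⟨r₀, hr₀, fun r hr ε hε => ?_⟩
  obtain ⟨M, hM, hV⟩ := pair_V A hA 1 r (hr₀.trans hr)
  obtain ⟨c, hc, h1⟩ := h r hr M hM ε hε
  refine ⟨c, hc, fun δ hδ => ?_⟩
  obtain ⟨B, h2⟩ := h1 δ hδ
  refine ⟨B, ?_⟩
  filter_upwards [h2, hV, pair_sys0 A hA 1]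
    with X h1 h2 h3 N q a hN hNpos hNX hq hqX haX hqa hqf u Y hY hYX hYu S hS
  have hN0 : (0 : ℝ) < N := by exact_mod_cast hNpos
  have hN0' : N ≠ 0 := hNpos.ne'
  have e1 : (1 : ℤ) * a + (N : ℤ) = a + N := by ring
  have habs : |(((N : ℕ) : ℤ) : ℝ)| = N := by
    rw [Int.cast_natCast, abs_of_pos hN0]
  have hok : PairOK X A 1 1 (N : ℤ) q a :=
    { he := by norm_num
      hf := by exact_mod_cast hN
      hf0 := by exact_mod_cast hN0'
      hfX := by rw [habs]; exact hNX
      hq := hq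
      hqX := hqX
      haX := haX
      hqa := hqa
      hqf := by rw [e1]; exact hqf }
  have hVe := V_eq N q a X r hqa (by rw [e1]; exact hqf)
  rw [hVe]
  obtain ⟨h4, h5⟩ := h3 1 N q a hok
  exact h1 _ h4 _ (by simp) h5 (h2 1 N q a hok) u Y hY hYX hYu S
    (fun n hn => (good_iff N q a X r n).1 (hS n hn))

end Pool.Agent.Results.MP_70e905_nt.RegularPoints
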