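import Mathlib
import Pool.Agent.R463.Quad

set_option autoImplicit false

/-!
# Regular points of arbitrary sets of prime or almost prime values of quadratic polynomials

Uniformly in ALL triples `(a, b, c)` of Conjecture F (as large as a power of `X`): almost all elements of
EVERY set of `n` for which `a n ^ 2 + b n + c` has no small prime factor, for instance of every set of `n`
for which it is prime, are regular points of the set, in all short intervals.
-/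

namespace Pool.Agent.Results.MP_a17b09_nt.RegularPoints

open Finset Filter
open Pool.Agent.R463.PS

/-- The triples of Conjecture F: `a > 0`, `gcd (a, b, c) = 1`, `a + b` and `c` are not both even, the
discriminant is not a square. -/
def Admissible (a b c : ℤ) : Prop :=
  0 < a ∧ (∀ p : ℕ, p.Prime → ¬ ((p : ℤ) ∣ a ∧ (p : ℤ) ∣ b ∧ (p : ℤ) ∣ c)) ∧
    ¬ (Even (a + b) ∧ Even c) ∧ ¬ IsSquare (b ^ 2 - 4 * a * c)

/-- `a n ^ 2 + b n + c` has no prime factor `p ≤ X ^ (1 / r)` -/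
def Good (a b c : ℤ) (X r n : ℕ) : Prop :=
  ∀ p : ℕ, p.Prime → (p : ℝ) ≤ (X : ℝ) ^ (1 / (r : ℝ)) → ¬ (p : ℤ) ∣ a * (n : ℤ) ^ 2 + b * n + c

/-- the number of the roots of `a n ^ 2 + b n + c` modulo `p` -/
def nu (a b c : ℤ) (p : ℕ) : ℕ :=
  ((range p).filter (fun n : ℕ => (p : ℤ) ∣ a * (n : ℤ) ^ 2 + b * n + c)).card

/-- the density: the product of `1 - nu(p) / p` over the primes `p ≤ X ^ (1 / r)` -/
noncomputable def V (a b c : ℤ) (X r : ℕ) : ℝ :=
  ∏ p ∈ (Icc 1 ⌊(X : ℝ) ^ (1 / (r : ℝ))⌋₊).filter Nat.Prime, (1 - (nu a b c p : ℝ) / p)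

/-- the partial product of the Bateman-Horn constant `2 C (a, b, c)`: the product of
`(1 - nu(p) / p) / (1 - 1 / p)` over the primes `p ≤ X ^ (1 / r)` -/
noncomputable def C (a b c : ℤ) (X r : ℕ) : ℝ :=
  ∏ p ∈ (Icc 1 ⌊(X : ℝ) ^ (1 / (r : ℝ))⌋₊).filter Nat.Prime,
    (1 - (nu a b c p : ℝ) / p) / (1 - 1 / (p : ℝ))

lemma good_iff (a b c : ℤ) (X r n : ℕ) :
    Good a b c X r n ↔ Sifted (Pool.Agent.TH464.PO.qs a b c) X r n := by
  rw [quad_sift]
  rfl

lemma V_eq (a b c : ℤ) (X r : ℕ) : V a b c X r = Pool.Agent.R463.PS.V (Pool.Agent.TH464.PO.qs a b c) X r := by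
  unfold V Pool.Agent.R463.PS.V
  apply prod_congr rfl
  intro p _
  rw [quad_om]
  rfl

lemma C_eq (a b c : ℤ) (X r : ℕ) : C a b c X r = V a b c X r / Pool.Agent.H373R2.T7.Vz ⌊(X : ℝ) ^ (1 / (r : ℝ))⌋₊ := by
  unfold C V Pool.Agent.H373R2.T7.Vz
  rw [Finset.prod_div_distrib]
  rfl

lemma no_tr (a b c : ℤ) (ha : 0 < a) (i j : Fin 1) (t : ℕ) (ht : 1 ≤ t) :
    Pool.Agent.TH464.PO.qs a b c i ≠ (Pool.Agent.TH464.PO.qs a b c j).comp
      (Polynomial.X + Polynomial.C (t : ℤ)) ∧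
    Pool.Agent.TH464.PO.qs a b c i ≠ -(Pool.Agent.TH464.PO.qs a b c j).comp
      (Polynomial.X + Polynomial.C (t : ℤ)) := by
  have h := Pool.Agent.Y879.GL.no_self (Pool.Agent.TH464.PW.quad a b c)
    (by rw [Pool.Agent.TH464.PW.quad_deg a b c ha.ne']; norm_num) (t : ℤ) (by exact_mod_cast (by omega : t ≠ 0))
  constructor
  · intro e
    exact h (by
      unfold Pool.Agent.TH464.PO.qs at e
      rw [← e])
  · intro e
    exact h (by
      unfold Pool.Agent.TH464.PO.qs at e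
      have e2 : (Pool.Agent.TH464.PW.quad a b c).comp (Polynomial.X + Polynomial.C (t : ℤ)) =
        -(Pool.Agent.TH464.PW.quad a b c) := by rw [← neg_neg ((Pool.Agent.TH464.PW.quad a b c).comp _), ← e]
      rw [e2]
      exact (Associated.refl _).neg_right)

open Classical in
/-- **Regular points of arbitrary sets of rough values of quadratic polynomials.**

`Regular S V κ δ D Y n`: every interval `(n - s, n + t]`, `s, t ≤ Y`, with `κ (s + t) V ≥ 1` contains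
between `κ (s + t) V` and `(s + t) V / κ` elements of `S`, and for all scales `1 / V ≤ 2 ^ j ≤ Y` with at
most `D` exceptions there is a density `κ ≤ lam ≤ 1 / κ` such that all intervals `(n - s, n + t]`,
`s, t ≤ 2 ^ j`, contain `lam (s + t) V` elements of `S`, up to `δ 2 ^ j V`.

For every natural `A` and `θ > 0` there is `r₀` such that for all `r ≥ r₀`, `B > 0` and `ε > 0` there is
`κ > 0`, and for all `δ > 0` there is `D`, such that for all large `X` the following holds uniformly for ALL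
admissible triples `(a, b, c)` with `|a|, |b|, |c| ≤ X ^ A` for which the partial product `C` of the
Bateman-Horn constant is at most `B`, all intervals `(u, u + Y]` with `X ^ θ ≤ Y ≤ X`, `Y ≤ u`, and EVERY
set `S` of good integers: at most `ε Y V` elements of `S` in `(u, u + Y]` are not regular points of `S`. -/
theorem result (A : ℕ) (θ : ℝ) (hθ : 0 < θ) :
    ∃ r₀ : ℕ, 2 ≤ r₀ ∧ ∀ r : ℕ, r₀ ≤ r → ∀ B : ℝ, 0 < B → ∀ ε : ℝ, 0 < ε → ∃ κ : ℝ, 0 < κ ∧
      ∀ δ : ℝ, 0 < δ → ∃ D : ℕ, ∀ᶠ X : ℕ in atTop, ∀ a b c : ℤ, Admissible a b c →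
        |a| ≤ (X : ℤ) ^ A → |b| ≤ (X : ℤ) ^ A → |c| ≤ (X : ℤ) ^ A → C a b c X r ≤ B →
        ∀ u Y : ℕ, (X : ℝ) ^ θ ≤ Y → Y ≤ X → Y ≤ u →
        ∀ S : Set ℕ, (∀ n ∈ S, Good a b c X r n) →
          (((Ioc u (u + Y)).filter (fun n => n ∈ S ∧ ¬ Regular S (V a b c X r) κ δ D Y n)).card : ℝ) ≤
            ε * (Y * V a b c X r) := by
  obtain ⟨r₀, hr₀, h⟩ := regular 1 2 0 ((A : ℝ) + 1) 1 θ (by positivity) one_pos hθ
  refine ⟨r₀, hr₀, fun r hr B hB ε hε => ?_⟩
  obtain ⟨w1, w2, hw1, hw2, hW⟩ := W0_bounds r (hr₀.trans hr)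
  obtain ⟨κ, hκ, h1⟩ := h r hr (B * w2) (by positivity) ε hε
  refine ⟨κ, hκ, fun δ hδ => ?_⟩
  obtain ⟨D, h2⟩ := h1 δ hδ
  refine ⟨D, ?_⟩
  filter_upwards [h2, hW, eventually_ge_atTop 3]
    with X h1 h2 h3 a b c hadm haX hbX hcX hCB u Y hY hYX hYu S hS
  obtain ⟨g1, g2, g3, g4⟩ := hadm
  have hlog : 0 < Real.log X := Real.log_pos (by exact_mod_cast (by omega : 1 < X))
  have hz : 0 < Pool.Agent.H373R2.T7.Vz ⌊(X : ℝ) ^ (1 / (r : ℝ))⌋₊ :=
    lt_of_lt_of_le (by positivity) h2.1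
  rw [C_eq, div_le_iff₀ hz] at hCB
  have hV : V a b c X r ≤ B * w2 / Real.log X := by
    refine hCB.trans ?_
    calc B * Pool.Agent.H373R2.T7.Vz ⌊(X : ℝ) ^ (1 / (r : ℝ))⌋₊ ≤ B * (w2 / Real.log X) :=
          mul_le_mul_of_nonneg_left h2.2 hB.le
      _ = B * w2 / Real.log X := by ring
  rw [V_eq] at hV ⊢
  exact h1 _ (quad_system A X (by omega) a b c g1 g2 g3 g4 haX hbX hcX _) ∅ (by simp)
    (fun i j t ht _ _ => no_tr a b c g1 i j t ht) hV u Y hY hYX hYu S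
    (fun n hn => (good_iff a b c X r n).1 (hS n hn))

end Pool.Agent.Results.MP_a17b09_nt.RegularPoints
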