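import Mathlib
import Pool.Agent.R463.TwoP

set_option autoImplicit false

/-!
# Regular points of the sets of the `p₁` with `n - f(p₁)` prime

Uniformly in `n` and the admissible quadratic `f`: almost all elements of EVERY set of `x` for which `x` and
`n - f(x)` have no small prime factor, for instance of every set of large primes `x` for which `n - f(x)` is a
large prime, are regular points of the set, in all short intervals.
-/

namespace Pool.Agent.Results.MP_d9bc60_nt.RegularPoints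

open Finset Filter
open Pool.Agent.R463.PS (Regular)

/-- the functions `n - f x` with an admissible `f x = x ^ 2 + b x + c` (`b` and `c` have opposite parity, `3`
does not divide `b`) and an odd `n` which is not a value of `f` at an integer; `|b|, |c|, |n| ≤ N ^ A` -/
def Family (A N : ℕ) (g : ℕ → ℤ) : Prop :=
  ∃ b c n : ℤ, Odd (b + c) ∧ ¬ (3 : ℤ) ∣ b ∧ Odd n ∧ (∀ m : ℤ, m ^ 2 + b * m + c ≠ n) ∧
    |b| ≤ (N : ℤ) ^ A ∧ |c| ≤ (N : ℤ) ^ A ∧ |n| ≤ (N : ℤ) ^ A ∧
    g = fun x : ℕ => n - ((x : ℤ) ^ 2 + b * x + c)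

/-- neither `n` nor `f n` has a prime factor `p ≤ X ^ (1 / r)` -/
def Good (f : ℕ → ℤ) (X r n : ℕ) : Prop :=
  ∀ p : ℕ, p.Prime → (p : ℝ) ≤ (X : ℝ) ^ (1 / (r : ℝ)) → ¬ p ∣ n ∧ ¬ (p : ℤ) ∣ f n

/-- the number of the residues `n` modulo `p` for which `p` divides `n` or `f n` -/
def nu (f : ℕ → ℤ) (p : ℕ) : ℕ := ((range p).filter (fun n : ℕ => p ∣ n ∨ (p : ℤ) ∣ f n)).card

/-- the product of `1 - nu(p) / p` over the primes `p ≤ X ^ (1 / r)` -/
noncomputable def V (f : ℕ → ℤ) (X r : ℕ) : ℝ :=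
  ∏ p ∈ (Icc 1 ⌊(X : ℝ) ^ (1 / (r : ℝ))⌋₊).filter Nat.Prime, (1 - (nu f p : ℝ) / p)

lemma good_iff (f : ℕ → ℤ) (g : ℤ → ℤ) (hg : ∀ n : ℕ, g n = f n) (X r n : ℕ) :
    Good f X r n ↔ Pool.Agent.R463.TP.GoodT g X r n := by
  unfold Good Pool.Agent.R463.TP.GoodT
  simp only [hg]

lemma nu_eq (f : ℕ → ℤ) (g : ℤ → ℤ) (hg : ∀ n : ℕ, g n = f n) (p : ℕ) :
    nu f p = Pool.Agent.R463.TP.nuT g p := by
  classical
  unfold nu Pool.Agent.R463.TP.nuT
  congr 1
  ext n
  simp only [mem_filter, hg]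

lemma V_eq (f : ℕ → ℤ) (g : ℤ → ℤ) (hg : ∀ n : ℕ, g n = f n) (X r : ℕ) :
    V f X r = Pool.Agent.R463.TP.VT g X r := by
  unfold V Pool.Agent.R463.TP.VT
  simp only [nu_eq f g hg]

lemma adm (b c n : ℤ) (hbc : Odd (b + c)) (h3 : ¬ (3 : ℤ) ∣ b) (hn : Odd n) (p : ℕ) (hp : p.Prime) :
    ∃ x : ℕ, ¬ p ∣ x ∧ ¬ (p : ℤ) ∣ (-1) * (x : ℤ) ^ 2 + (-b) * x + (n - c) := by
  by_cases h2 : p = 2
  · subst h2
    refine ⟨1, by norm_num, ?_⟩
    intro h
    obtain ⟨u, hu⟩ := hbc
    obtain ⟨v, hv⟩ := hn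
    have e : (-1) * ((1 : ℕ) : ℤ) ^ 2 + (-b) * ((1 : ℕ) : ℤ) + (n - c) = 2 * (v - u - 1) + 1 := by
      push_cast
      linarith
    rw [e] at h
    push_cast at h
    omega
  by_cases h3' : p = 3
  · subst h3'
    by_contra hcon
    push Not at hcon
    have g1 := hcon 1 (by norm_num)
    have g2 := hcon 2 (by norm_num)
    apply h3
    have h4 := dvd_sub g1 g2
    have e : (-1) * ((1 : ℕ) : ℤ) ^ 2 + (-b) * ((1 : ℕ) : ℤ) + (n - c) -
        ((-1) * ((2 : ℕ) : ℤ) ^ 2 + (-b) * ((2 : ℕ) : ℤ) + (n - c)) = 3 + b := by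
      push_cast
      ring
    rw [e] at h4
    have h5 : (3 : ℤ) ∣ 3 + b := by exact_mod_cast h4
    exact (dvd_add_right (dvd_refl (3 : ℤ))).1 h5
  have hp5 : 5 ≤ p := by
    have := hp.two_le
    by_contra hcon
    have : p = 4 := by omega
    subst this
    exact absurd hp (by norm_num)
  by_contra hcon
  push Not at hcon
  have g1 := hcon 1 (fun h => by have := Nat.le_of_dvd (by norm_num) h; omega)
  have g2 := hcon 2 (fun h => by have := Nat.le_of_dvd (by norm_num) h; omega)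
  have g3 := hcon 3 (fun h => by have := Nat.le_of_dvd (by norm_num) h; omega)
  have h4 := dvd_sub (g2.mul_left 2) (dvd_add g1 g3)
  have e : 2 * ((-1) * ((2 : ℕ) : ℤ) ^ 2 + (-b) * ((2 : ℕ) : ℤ) + (n - c)) -
      ((-1) * ((1 : ℕ) : ℤ) ^ 2 + (-b) * ((1 : ℕ) : ℤ) + (n - c) +
        ((-1) * ((3 : ℕ) : ℤ) ^ 2 + (-b) * ((3 : ℕ) : ℤ) + (n - c))) = ((2 : ℕ) : ℤ) := by
    push_cast
    ring
  rw [e] at h4
  have h5 : p ∣ 2 := by exact_mod_cast h4
  have := Nat.le_of_dvd (by norm_num) h5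
  omega

lemma fam (A N : ℕ) (hN : 3 ≤ N) (f : ℕ → ℤ) (h : Family A N f) :
    ∃ (F : Polynomial ℤ) (g : ℤ → ℤ), Pool.Agent.R490.PA.Good 2 ((N : ℤ) ^ (A + 1)) F g ∧
      ∀ n : ℕ, g n = f n := by
  obtain ⟨b, c, n, hbc, h3, hn, hnf, hb, hc, hnN, rfl⟩ := h
  have hNz : (3 : ℤ) ≤ N := by exact_mod_cast hN
  have hA1 : (1 : ℤ) ≤ (N : ℤ) ^ A := one_le_pow₀ (by linarith)
  have hpow : (N : ℤ) ^ (A + 1) = (N : ℤ) ^ A * N := by ring
  have hbig : 3 * (N : ℤ) ^ A ≤ (N : ℤ) ^ (A + 1) := by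
    rw [hpow]
    nlinarith
  refine ⟨Pool.Agent.TH464.PW.quad (-1) (-b) (n - c), fun x => (-1) * x ^ 2 + (-b) * x + (n - c),
    { ev := fun x => by
        unfold Pool.Agent.TH464.PW.quad
        simp
      irr := Pool.Agent.TH464.PW.quad_irr (-1) (-b) (n - c) (by norm_num) (fun p hp h => by
        have h1 : (p : ℤ) ∣ 1 := by
          have := (dvd_neg (a := (p : ℤ)) (b := 1)).1 h.1
          exact this
        have h2 : p ∣ 1 := by exact_mod_cast h1
        exact hp.one_lt.ne' (Nat.dvd_one.1 h2)) (by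
        rintro ⟨m, hm⟩
        have h4 : m * m = b * b + 4 * (n - c) := by linarith
        have h5 : Even (m - b) := by
          by_contra hcon
          rw [Int.not_even_iff_odd] at hcon
          have h6 : Odd (m + b) := by
            have e : m + b = (m - b) + 2 * b := by ring
            rw [e]
            exact hcon.add_even (even_two_mul b)
          have h7 : Odd ((m - b) * (m + b)) := hcon.mul h6
          have e : (m - b) * (m + b) = 2 * (2 * (n - c)) := by linarith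
          rw [e] at h7
          exact (Int.not_even_iff_odd.2 h7) (even_two_mul _)
        obtain ⟨x, hx⟩ := h5
        apply hnf x
        have h6 : m = 2 * x + b := by linarith
        rw [h6] at h4
        linarith)
      deg := by rw [Pool.Agent.TH464.PW.quad_deg _ _ _ (by norm_num)]
      degD := by rw [Pool.Agent.TH464.PW.quad_deg _ _ _ (by norm_num)]
      hgt := fun k => Pool.Agent.Y879.GL.quad_coeff _ _ _ k _ (by
          rw [abs_neg, abs_one]
          linarith) (by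
          rw [abs_neg]
          linarith) (by
          have := abs_sub n c
          linarith)
      adm := fun p hp => adm b c n hbc h3 hn p hp }, fun x => by
        show (-1) * (x : ℤ) ^ 2 + (-b) * x + (n - c) = n - ((x : ℤ) ^ 2 + b * x + c)
        ring⟩

open Classical in
/-- **Regular points.**

`Regular S V c δ D Y n`: every interval `(n - s, n + t]`, `s, t ≤ Y`, with `c (s + t) V ≥ 1` contains
between `c (s + t) V` and `(s + t) V / c` elements of `S`, and for all scales `1 / V ≤ 2 ^ j ≤ Y` with at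
most `D` exceptions there is a density `c ≤ lam ≤ 1 / c` such that all intervals `(n - s, n + t]`,
`s, t ≤ 2 ^ j`, contain `lam (s + t) V` elements of `S`, up to `δ 2 ^ j V`.

For every natural `A` and `θ > 0` there is `r₀` such that for all `r ≥ r₀` and `ε > 0` there is `c > 0`, and
for all `δ > 0` there is `D`, such that for all large `X` the following holds uniformly for ALL functions `f`
of `Family A X` (`g x = n - f x`, `f x = x ^ 2 + b x + c` admissible, `n` odd and not a value of `f`), all intervals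
`(u, u + Y]` with `X ^ θ ≤ Y ≤ X`, `Y ≤ u`, and EVERY set `S` of good integers: at most `ε Y V` elements of `S`
in `(u, u + Y]` are not regular points of `S`. -/
theorem result (A : ℕ) (θ : ℝ) (hθ : 0 < θ) :
    ∃ r₀ : ℕ, 2 ≤ r₀ ∧ ∀ r : ℕ, r₀ ≤ r → ∀ ε : ℝ, 0 < ε → ∃ c : ℝ, 0 < c ∧
      ∀ δ : ℝ, 0 < δ → ∃ D : ℕ, ∀ᶠ X : ℕ in atTop, ∀ f : ℕ → ℤ, Family A X f →
        ∀ u Y : ℕ, (X : ℝ) ^ θ ≤ Y → Y ≤ X → Y ≤ u →
        ∀ S : Set ℕ, (∀ n ∈ S, Good f X r n) →
          (((Ioc u (u + Y)).filter (fun n => n ∈ S ∧ ¬ Regular S (V f X r) c δ D Y n)).card : ℝ) ≤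
            ε * (Y * V f X r) := by
  obtain ⟨r₀, hr₀, h⟩ := Pool.Agent.R463.TP.regT 2 (A + 1) (by norm_num) θ hθ
  refine ⟨r₀, hr₀, fun r hr ε hε => ?_⟩
  obtain ⟨c, hc, h1⟩ := h r hr ε hε
  refine ⟨c, hc, fun δ hδ => ?_⟩
  obtain ⟨D, h2⟩ := h1 δ hδ
  refine ⟨D, ?_⟩
  filter_upwards [h2, eventually_ge_atTop 3] with X h1 h2 f hf u Y hY hYX hYu S hS
  obtain ⟨F, g, hF, hg⟩ := fam A X h2 f hf
  rw [V_eq f g hg]
  exact h1 F g hF u Y hY hYX hYu S (fun m hm => (good_iff f g hg X r m).1 (hS m hm))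

end Pool.Agent.Results.MP_d9bc60_nt.RegularPoints
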