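import Mathlib
import Pool.Agent.R463.Lin2

set_option autoImplicit false

/-!
# Regular points of arbitrary sets of prime or almost prime tuples, uniformly in the shifts

Uniformly in ALL tuples `h` without local obstruction with entries up to any power of `X`: almost all
elements of EVERY set of `n` for which no `n + h i` has a small prime factor, for instance of every set of
`n` for which all of them are prime, are regular points of the set, in all short intervals.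
-/

namespace Pool.Agent.Results.MP_e87c7d_nt.RegularPoints

open Finset Filter
open Pool.Agent.R463.PS

/-- no `n + h i` has a prime factor `p ≤ X ^ (1 / r)` -/
def Good {k : ℕ} (h : Fin k → ℤ) (X r n : ℕ) : Prop :=
  ∀ p : ℕ, p.Prime → (p : ℝ) ≤ (X : ℝ) ^ (1 / (r : ℝ)) → ∀ i, ¬ (p : ℤ) ∣ n + h i

/-- the number of the residues `n` modulo `p` for which `p` divides some `n + h i` -/
def nu {k : ℕ} (h : Fin k → ℤ) (p : ℕ) : ℕ :=
  ((range p).filter (fun n : ℕ => ∃ i, (p : ℤ) ∣ n + h i)).card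

/-- the density: the product of `1 - nu(p) / p` over the primes `p ≤ X ^ (1 / r)` -/
noncomputable def V {k : ℕ} (h : Fin k → ℤ) (X r : ℕ) : ℝ :=
  ∏ p ∈ (Icc 1 ⌊(X : ℝ) ^ (1 / (r : ℝ))⌋₊).filter Nat.Prime, (1 - (nu h p : ℝ) / p)

lemma good_iff {k : ℕ} (h : Fin k → ℤ) (X r n : ℕ) : Good h X r n ↔ Sifted (ls (fun _ => 1) h) X r n := by
  rw [ls_sift]
  unfold Good
  simp only [one_mul]

lemma V_eq {k : ℕ} (h : Fin k → ℤ) (X r : ℕ) : V h X r = Pool.Agent.R463.PS.V (ls (fun _ => 1) h) X r := by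
  unfold V Pool.Agent.R463.PS.V
  apply prod_congr rfl
  intro p _
  rw [ls_om]
  unfold nu
  simp only [one_mul]

open Classical in
/-- **Regular points of arbitrary sets of almost prime tuples.**

`Regular S V κ δ D Y n`: every interval `(n - s, n + t]`, `s, t ≤ Y`, with `κ (s + t) V ≥ 1` contains
between `κ (s + t) V` and `(s + t) V / κ` elements of `S`, and for all scales `1 / V ≤ 2 ^ j ≤ Y` with at
most `D` exceptions there is a density `κ ≤ lam ≤ 1 / κ` such that all intervals `(n - s, n + t]`,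
`s, t ≤ 2 ^ j`, contain `lam (s + t) V` elements of `S`, up to `δ 2 ^ j V`.

For all `k ≥ 1` and `E, θ > 0` there is `r₀` such that for all `r ≥ r₀` and `ε > 0` there is `κ > 0`, and for
all `δ > 0` there is `D`, such that for all large `X` the following holds uniformly for ALL tuples `h` of `k`
integers with `|h i| ≤ X ^ E` without local obstruction (for every prime `p` some `n` makes `p` divide none
of the `n + h i`), all intervals `(u, u + Y]` with `X ^ θ ≤ Y ≤ X`, `Y ≤ u`, and EVERY set `S` of good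
integers: at most `ε Y V` elements of `S` in `(u, u + Y]` are not regular points of `S`. -/
theorem result (k : ℕ) (hk : 0 < k) (E θ : ℝ) (hE : 0 < E) (hθ : 0 < θ) :
    ∃ r₀ : ℕ, 2 ≤ r₀ ∧ ∀ r : ℕ, r₀ ≤ r → ∀ ε : ℝ, 0 < ε → ∃ κ : ℝ, 0 < κ ∧
      ∀ δ : ℝ, 0 < δ → ∃ D : ℕ, ∀ᶠ X : ℕ in atTop, ∀ h : Fin k → ℤ,
        (∀ i, |(h i : ℝ)| ≤ (X : ℝ) ^ E) → (∀ p : ℕ, p.Prime → ∃ n : ℕ, ∀ i, ¬ (p : ℤ) ∣ n + h i) →
        ∀ u Y : ℕ, (X : ℝ) ^ θ ≤ Y → Y ≤ X → Y ≤ u →
        ∀ S : Set ℕ, (∀ n ∈ S, Good h X r n) →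
          (((Ioc u (u + Y)).filter (fun n => n ∈ S ∧ ¬ Regular S (V h X r) κ δ D Y n)).card : ℝ) ≤
            ε * (Y * V h X r) := by
  obtain ⟨r₀, hr₀, H⟩ := regular k 1 (k * k) E 1 θ hE one_pos hθ
  refine ⟨r₀, hr₀, fun r hr ε hε => ?_⟩
  obtain ⟨C, hC, hVz⟩ := Vz_le r (hr₀.trans hr)
  obtain ⟨κ, hκ, h1⟩ := H r hr C hC ε hε
  refine ⟨κ, hκ, fun δ hδ => ?_⟩
  obtain ⟨D, h2⟩ := h1 δ hδ
  refine ⟨D, ?_⟩
  filter_upwards [h2, hVz, eventually_ge_atTop 1] with X h1 h3 hX1 h hh hloc u Y hY hYX hYu S hS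
  have hX1r : (1 : ℝ) ≤ (X : ℝ) ^ E := Real.one_le_rpow (by exact_mod_cast hX1) hE.le
  have hadm : AdmL (fun _ : Fin k => (1 : ℤ)) h := by
    refine ⟨fun _ => one_pos, fun p hp => ?_⟩
    obtain ⟨n, hn⟩ := hloc p hp
    exact ⟨n, fun i => by rw [one_mul]; exact hn i⟩
  rw [V_eq]
  refine h1 _ (lin_system hadm _ _ (fun i => ?_) hh ?_) (exc _ h) (exc_card _ h)
    (fun i j t _ _ ht3 => ⟨ls_ne i j t (exc_mem hadm i j t ht3), ls_ne_neg hadm i j t⟩)
    ((V_le_Vz _ X r (fun p hp => om_monic (⟨0, hk⟩ : Fin k) rfl p hp)).trans h3)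
    u Y hY hYX hYu S (fun n hn => (good_iff h X r n).1 (hS n hn))
  · simpa using hX1r
  · intro i j t ht ht0
    have h3 : (1 : ℝ) ≤ t := by exact_mod_cast ht
    linarith

end Pool.Agent.Results.MP_e87c7d_nt.RegularPoints
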